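import Mathlib

/-!
# Weak Jacobi forms of index one for even lattices: definitions
-/

set_option autoImplicit false

open UpperHalfPlane Complex ModularForm MatrixGroups
open scoped Real

namespace Pool.Agent.Q110.Jac

variable {n : ℕ}

/-- the standard bilinear form on `ℝⁿ` -/
def bil (x y : Fin n → ℝ) : ℝ := ∑ i, x i * y i

/-- its complex bilinear extension -/
def bilC (x y : Fin n → ℂ) : ℂ := ∑ i, x i * y i

/-- the inclusion `ℝⁿ ⊆ ℂⁿ` -/
def toC (x : Fin n → ℝ) : Fin n → ℂ := fun i => (x i : ℂ)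

/-- `L` is an even positive definite lattice of rank `n`, realised in `ℝⁿ` -/
structure IsEvenLattice (L : AddSubgroup (Fin n → ℝ)) : Prop where
  int : ∀ x ∈ L, ∀ y ∈ L, ∃ k : ℤ, bil x y = k
  even : ∀ x ∈ L, ∃ k : ℤ, bil x x = 2 * k
  span : Submodule.span ℝ (L : Set (Fin n → ℝ)) = ⊤

/-- the dual lattice -/
def dual (L : AddSubgroup (Fin n → ℝ)) : AddSubgroup (Fin n → ℝ) where
  carrier := {y | ∀ x ∈ L, ∃ k : ℤ, bil x y = k}
  zero_mem' := fun x _ => ⟨0, by simp [bil]⟩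
  add_mem' := by
    intro a b ha hb x hx
    obtain ⟨k, hk⟩ := ha x hx
    obtain ⟨l, hl⟩ := hb x hx
    refine ⟨k + l, ?_⟩
    push_cast
    rw [← hk, ← hl]
    simp only [bil, Pi.add_apply, mul_add, Finset.sum_add_distrib]
  neg_mem' := by
    intro a ha x hx
    obtain ⟨k, hk⟩ := ha x hx
    refine ⟨-k, ?_⟩
    push_cast
    rw [← hk]
    simp only [bil, Pi.neg_apply, mul_neg, Finset.sum_neg_distrib]

/-- `L` is not the orthogonal direct sum of two nonzero sublattices -/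
def IsIrred (L : AddSubgroup (Fin n → ℝ)) : Prop :=
  ∀ A B : AddSubgroup (Fin n → ℝ), A ⊔ B = L → (∀ a ∈ A, ∀ b ∈ B, bil a b = 0) → A = ⊥ ∨ B = ⊥

/-- weak Jacobi forms of weight `k` and index one for `L` -/
structure WeakJacobi (k : ℤ) (L : AddSubgroup (Fin n → ℝ)) (φ : ℍ → (Fin n → ℂ) → ℂ) : Prop where
  hol : DifferentiableOn ℂ (fun p : ℂ × (Fin n → ℂ) => φ (UpperHalfPlane.ofComplex p.1) p.2)
    {p | 0 < p.1.im}
  modular : ∀ (γ : SL(2, ℤ)) (τ : ℍ) (z : Fin n → ℂ),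
    φ (γ • τ) (fun i => z i / denom γ τ) =
      (denom γ τ) ^ k * cexp (π * Complex.I * ((γ 1 0 : ℤ) : ℂ) * bilC z z / denom γ τ) * φ τ z
  elliptic : ∀ (τ : ℍ) (z : Fin n → ℂ), ∀ a ∈ L, ∀ b ∈ L,
    φ τ (fun i => z i + (a i : ℂ) * τ + (b i : ℂ)) =
      cexp (-π * Complex.I * (bil a a : ℂ) * τ - 2 * π * Complex.I * bilC (toC a) z) * φ τ z
  fourier : ∃ f : ℕ → dual L → ℂ, ∀ (τ : ℍ) (z : Fin n → ℂ),
    HasSum (fun p : ℕ × dual L => f p.1 p.2 * cexp (2 * π * Complex.I * (p.1 : ℂ) * τ) *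
      cexp (2 * π * Complex.I * bilC (toC (p.2 : Fin n → ℝ)) z)) (φ τ z)

/-- the coordinate vector of an integer vector -/
noncomputable def vec (m : Fin 15 → ℤ) : Fin 15 → ℝ :=
  fun i => if i = 0 then (m i : ℝ) / Real.sqrt 2 else (m i : ℝ) / 2

theorem vec_add (m m' : Fin 15 → ℤ) : vec (m + m') = vec m + vec m' := by
  funext i
  simp only [vec, Pi.add_apply]
  split_ifs <;> push_cast <;> ring

theorem vec_neg (m : Fin 15 → ℤ) : vec (-m) = -vec m := by
  funext i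
  simp only [vec, Pi.neg_apply]
  split_ifs <;> push_cast <;> ring

/-- the orthogonal complement of a root in the unimodular lattice `D₁₆⁺`, a lattice of rank 15 and
determinant 2 -/
noncomputable def L15 : AddSubgroup (Fin 15 → ℝ) where
  carrier := {x | ∃ m : Fin 15 → ℤ, x = vec m ∧ (∀ i, (2 : ℤ) ∣ m i - m 0) ∧
    (4 : ℤ) ∣ ∑ i : Fin 14, m i.succ}
  zero_mem' := ⟨0, by funext i; simp [vec], by simp, by simp⟩
  add_mem' := by
    rintro x y ⟨m, rfl, h1, h2⟩ ⟨m', rfl, h1', h2'⟩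
    refine ⟨m + m', (vec_add m m').symm, fun i => ?_, ?_⟩
    · have e : (m + m') i - (m + m') 0 = (m i - m 0) + (m' i - m' 0) := by
        simp only [Pi.add_apply]; ring
      rw [e]
      exact dvd_add (h1 i) (h1' i)
    · simp only [Pi.add_apply, Finset.sum_add_distrib]
      exact dvd_add h2 h2'
  neg_mem' := by
    rintro x ⟨m, rfl, h1, h2⟩
    refine ⟨-m, (vec_neg m).symm, fun i => ?_, ?_⟩
    · have e : (-m) i - (-m) 0 = -(m i - m 0) := by
        simp only [Pi.neg_apply]; ring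
      rw [e]
      exact dvd_neg.2 (h1 i)
    · simp only [Pi.neg_apply, Finset.sum_neg_distrib]
      exact (dvd_neg).2 h2

end Pool.Agent.Q110.Jac
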