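import Mathlib
import Pool.Agent.Q110.Jac.Defs

set_option autoImplicit false

open UpperHalfPlane ModularForm MatrixGroups Filter Topology
open scoped Real

namespace Pool.Agent.Q110.Jac

private theorem vec_zero' (m : Fin 15 → ℤ) : vec m 0 = (m 0 : ℝ) / Real.sqrt 2 := by
  simp [vec]

private theorem vec_succ' (m : Fin 15 → ℤ) (i : Fin 14) : vec m i.succ = (m i.succ : ℝ) / 2 := by
  simp [vec, Fin.succ_ne_zero]

private theorem bil_vec_self (m : Fin 15 → ℤ) :
    bil (vec m) (vec m) = ((2 * m 0 ^ 2 + ∑ i : Fin 14, m i.succ ^ 2 : ℤ) : ℝ) / 4 := by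
  unfold bil
  rw [Fin.sum_univ_succ, vec_zero']
  have h2 : Real.sqrt 2 * Real.sqrt 2 = 2 := Real.mul_self_sqrt (by norm_num)
  have e1 : (m 0 : ℝ) / Real.sqrt 2 * ((m 0 : ℝ) / Real.sqrt 2) = 2 * (m 0 : ℝ) ^ 2 / 4 := by
    rw [div_mul_div_comm, h2]
    ring
  rw [e1]
  have e2 : ∀ i : Fin 14, vec m i.succ * vec m i.succ = ((m i.succ : ℝ) ^ 2) / 4 := by
    intro i
    rw [vec_succ']
    ring
  simp only [e2]
  rw [← Finset.sum_div]
  push_cast
  ring

private theorem dvd_even (m : ℤ) (h : (2 : ℤ) ∣ m) : (8 : ℤ) ∣ m ^ 2 - 2 * m := by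
  obtain ⟨n, rfl⟩ := h
  obtain ⟨k, hk⟩ := Int.even_mul_pred_self n
  refine ⟨k, ?_⟩
  linear_combination 4 * hk

private theorem dvd_odd (m : ℤ) (h : ¬ (2 : ℤ) ∣ m) : (8 : ℤ) ∣ m ^ 2 - 1 := by
  obtain ⟨n, rfl⟩ : Odd m := by
    rw [← Int.not_even_iff_odd, even_iff_two_dvd]
    exact h
  obtain ⟨k, hk⟩ := Int.even_mul_succ_self n
  refine ⟨k, ?_⟩
  linear_combination 4 * hk

private theorem dvd_quad (m : Fin 15 → ℤ) (h1 : ∀ i, (2 : ℤ) ∣ m i - m 0)
    (h2 : (4 : ℤ) ∣ ∑ i : Fin 14, m i.succ) :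
    (8 : ℤ) ∣ 2 * m 0 ^ 2 + ∑ i : Fin 14, m i.succ ^ 2 := by
  by_cases h0 : (2 : ℤ) ∣ m 0
  · have hi : ∀ i, (2 : ℤ) ∣ m i := fun i => by
      have := dvd_add (h1 i) h0
      simpa using this
    have e1 : (8 : ℤ) ∣ ∑ i : Fin 14, (m i.succ ^ 2 - 2 * m i.succ) :=
      Finset.dvd_sum fun i _ => dvd_even _ (hi _)
    rw [Finset.sum_sub_distrib, ← Finset.mul_sum] at e1
    obtain ⟨a, ha⟩ := e1
    obtain ⟨b, hb⟩ := h2
    obtain ⟨c, hc⟩ := h0
    refine ⟨c ^ 2 + a + b, ?_⟩
    rw [hb] at ha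
    rw [hc]
    linear_combination ha
  · have hi : ∀ i, ¬ (2 : ℤ) ∣ m i := fun i hi => h0 (by
      have := dvd_sub hi (h1 i)
      simpa using this)
    have e1 : (8 : ℤ) ∣ ∑ i : Fin 14, (m i.succ ^ 2 - 1) :=
      Finset.dvd_sum fun i _ => dvd_odd _ (hi _)
    rw [Finset.sum_sub_distrib] at e1
    obtain ⟨a, ha⟩ := e1
    obtain ⟨b, hb⟩ := dvd_odd _ h0
    simp only [Finset.sum_const, Finset.card_univ, Fintype.card_fin] at ha
    refine ⟨2 * b + a + 2, ?_⟩
    have ha' : ∑ i : Fin 14, m i.succ ^ 2 - 14 = 8 * a := by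
      rw [← ha]
      norm_num
    linear_combination 2 * hb + ha'

private theorem bil_add_add {n : ℕ} (x y : Fin n → ℝ) :
    bil (x + y) (x + y) = bil x x + 2 * bil x y + bil y y := by
  unfold bil
  rw [Finset.mul_sum, ← Finset.sum_add_distrib, ← Finset.sum_add_distrib]
  refine Finset.sum_congr rfl fun i _ => ?_
  simp only [Pi.add_apply]
  ring

private theorem even_L15 : ∀ x ∈ L15, ∃ k : ℤ, bil x x = 2 * k := by
  rintro x ⟨m, rfl, h1, h2⟩
  obtain ⟨k, hk⟩ := dvd_quad m h1 h2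
  refine ⟨k, ?_⟩
  rw [bil_vec_self, hk]
  push_cast
  ring

theorem isEven_L15 : IsEvenLattice L15 := by
  refine ⟨?_, even_L15, ?_⟩
  · intro x hx y hy
    obtain ⟨a, ha⟩ := even_L15 x hx
    obtain ⟨b, hb⟩ := even_L15 y hy
    obtain ⟨c, hc⟩ := even_L15 (x + y) (L15.add_mem hx hy)
    refine ⟨c - a - b, ?_⟩
    rw [bil_add_add] at hc
    push_cast
    linarith
  · have h0 : Pi.single (0 : Fin 15) (1 : ℝ) ∈ Submodule.span ℝ (L15 : Set (Fin 15 → ℝ)) := by
      have hmem : vec (Pi.single 0 2) ∈ L15 := by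
        refine ⟨Pi.single 0 2, rfl, ?_, ?_⟩
        · decide
        · decide
      have e : Pi.single (0 : Fin 15) (1 : ℝ) = (Real.sqrt 2 / 2) • vec (Pi.single 0 2) := by
        funext i
        refine Fin.cases ?_ (fun j => ?_) i
        · rw [Pi.smul_apply, vec_zero']
          simp only [Pi.single_eq_same, smul_eq_mul]
          have : Real.sqrt 2 ≠ 0 := by positivity
          push_cast
          field_simp
        · rw [Pi.smul_apply, vec_succ']
          simp [Fin.succ_ne_zero]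
      rw [e]
      exact Submodule.smul_mem _ _ (Submodule.subset_span hmem)
    have hs : ∀ j : Fin 14, Pi.single j.succ (1 : ℝ) ∈
        Submodule.span ℝ (L15 : Set (Fin 15 → ℝ)) := by
      intro j
      have hmem : vec (Pi.single j.succ 4) ∈ L15 := by
        refine ⟨Pi.single j.succ 4, rfl, ?_, ?_⟩
        · revert j
          decide
        · revert j
          decide
      have e : Pi.single j.succ (1 : ℝ) = (1 / 2 : ℝ) • vec (Pi.single j.succ 4) := by
        funext i
        refine Fin.cases ?_ (fun l => ?_) i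
        · rw [Pi.smul_apply, vec_zero']
          simp [(Fin.succ_ne_zero j).symm]
        · rw [Pi.smul_apply, vec_succ']
          by_cases h : l = j
          · subst h
            simp only [Pi.single_eq_same, smul_eq_mul]
            push_cast
            norm_num
          · have h' : l.succ ≠ j.succ := fun h2 => h (Fin.succ_injective _ h2)
            simp [h']
      rw [e]
      exact Submodule.smul_mem _ _ (Submodule.subset_span hmem)
    rw [Submodule.eq_top_iff']
    intro x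
    rw [pi_eq_sum_univ' x]
    refine Submodule.sum_mem _ fun i _ => Submodule.smul_mem _ _ ?_
    have hall : ∀ i : Fin 15, Pi.single i (1 : ℝ) ∈
        Submodule.span ℝ (L15 : Set (Fin 15 → ℝ)) := fun i =>
      Fin.cases h0 (fun j => hs j) i
    have := hall i
    convert this using 1

end Pool.Agent.Q110.Jac
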