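import Mathlib
import Pool.Agent.Q110.Jac.Defs

set_option autoImplicit false

open UpperHalfPlane ModularForm MatrixGroups Filter Topology
open scoped Real

namespace Pool.Agent.Q110.Jac

theorem not_unimodular_L15 : dual L15 ≠ L15 := by
  intro h
  set m' : Fin 15 → ℤ := fun i => if i = 0 then 1 else if i = 1 then 2 else 0 with hm'
  have hs : Real.sqrt 2 ≠ 0 := by positivity
  have hss : Real.sqrt 2 * Real.sqrt 2 = 2 := Real.mul_self_sqrt (by norm_num)
  have hy : vec m' ∈ dual L15 := by
    intro x hx
    obtain ⟨m, rfl, h1, -⟩ := hx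
    obtain ⟨k, hk⟩ := h1 1
    refine ⟨m 0 + k, ?_⟩
    have e1 : (m 1 : ℝ) = m 0 + 2 * k := by
      have : m 1 = m 0 + 2 * k := by linarith
      rw [this]; push_cast; ring
    have e2 : bil (vec m) (vec m') = (m 0 : ℝ) / Real.sqrt 2 * (1 / Real.sqrt 2) +
        (m 1 : ℝ) / 2 * (2 / 2) := by
      unfold bil
      rw [Fin.sum_univ_succ, Fin.sum_univ_succ, Finset.sum_eq_zero]
      · simp [vec, hm']
      · intro i _
        have h0 : (Fin.succ (Fin.succ i) : Fin 15) ≠ 0 := Fin.succ_ne_zero _
        have h01 : (Fin.succ (Fin.succ i) : Fin 15) ≠ 1 := by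
          intro h
          have := congrArg Fin.val h
          simp at this
        simp [vec, hm', h0, h01]
    rw [e2, e1]
    have : (m 0 : ℝ) / Real.sqrt 2 * (1 / Real.sqrt 2) = m 0 / 2 := by
      rw [div_mul_div_comm, mul_one, hss]
    rw [this]
    push_cast
    ring
  rw [h] at hy
  obtain ⟨m, hm, h1, -⟩ := hy
  have e0 := congrFun hm 0
  have e1 := congrFun hm 1
  simp only [vec, hm', if_true] at e0
  have h10 : (1 : Fin 15) ≠ 0 := by decide
  simp only [vec, hm', if_neg h10, if_true] at e1
  have f0 : (m 0 : ℝ) = 1 := by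
    have := (div_left_inj' hs).1 e0
    push_cast at this
    linarith
  have f1 : (m 1 : ℝ) = 2 := by
    push_cast at e1
    linarith
  have g0 : m 0 = 1 := by exact_mod_cast f0
  have g1 : m 1 = 2 := by exact_mod_cast f1
  have := h1 1
  rw [g0, g1] at this
  norm_num at this

end Pool.Agent.Q110.Jac
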