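import Mathlib
import Pool.Agent.Q110.Jac.Defs

open UpperHalfPlane ModularForm MatrixGroups Filter Topology
open scoped Real

namespace Pool.Agent.Q110.Jac

namespace A3aux

theorem bil_vec (a : ℤ) (f : Fin 14 → ℤ) (y : Fin 15 → ℝ) :
    bil (vec (Fin.cons a f)) y = (a : ℝ) / Real.sqrt 2 * y 0 +
      ∑ i : Fin 14, (f i : ℝ) / 2 * y i.succ := by
  unfold bil
  rw [Fin.sum_univ_succ]
  congr 1

theorem mem_L15 (a : ℤ) (f : Fin 14 → ℤ) (h : ∀ i, (2 : ℤ) ∣ f i - a) (h4 : (4 : ℤ) ∣ ∑ i, f i) :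
    vec (Fin.cons a f) ∈ L15 := by
  refine ⟨Fin.cons a f, rfl, ?_, ?_⟩
  · intro i
    refine Fin.cases ?_ (fun j => ?_) i
    · simp
    · simpa using h j
  · simpa using h4

end A3aux

open A3aux in
theorem dual_struct (y : Fin 15 → ℝ) (hy : y ∈ dual L15) : ∃ m : Fin 15 → ℤ, y = vec m ∧
    (∀ i j : Fin 14, (2 : ℤ) ∣ m i.succ - m j.succ) ∧
    ((2 : ℤ) ∣ m 1 → (4 : ℤ) ∣ 2 * m 0 - ∑ i : Fin 14, m i.succ) ∧
    (¬ (2 : ℤ) ∣ m 1 → (4 : ℤ) ∣ 2 * m 0 + 2 - ∑ i : Fin 14, m i.succ) := by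
  have hs : 0 < Real.sqrt 2 := Real.sqrt_pos.mpr (by norm_num)
  have hs2 : Real.sqrt 2 * Real.sqrt 2 = 2 := Real.mul_self_sqrt (by norm_num)
  -- the first coordinate
  obtain ⟨k0, hk0⟩ := hy _ (mem_L15 2 0 (by intro i; simp) (by simp))
  rw [bil_vec] at hk0
  simp only [Pi.zero_apply, Int.cast_zero, zero_div, zero_mul, Finset.sum_const_zero, add_zero] at hk0
  have hy0 : y 0 = (k0 : ℝ) / Real.sqrt 2 := by
    rw [← hk0]
    field_simp
    rw [pow_two, hs2]
    push_cast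
    ring
  -- the sums of two coordinates
  have hb : ∀ i j : Fin 14, ∃ k : ℤ, y i.succ + y j.succ = k := by
    intro i j
    obtain ⟨k, hk⟩ := hy _ (mem_L15 0 (fun t => (if t = i then 2 else 0) + (if t = j then 2 else 0))
      (by intro t; split_ifs <;> norm_num)
      (by rw [Finset.sum_add_distrib]; simp))
    refine ⟨k, ?_⟩
    rw [bil_vec] at hk
    rw [← hk]
    push_cast
    simp only [add_div, add_mul, Finset.sum_add_distrib, ite_div, ite_mul, zero_div, zero_mul,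
      Finset.sum_ite_eq', Finset.mem_univ, if_true]
    ring
  choose K hK using hb
  -- the vector (1; -1, 1, ..., 1)
  obtain ⟨k1, hk1⟩ := hy _ (mem_L15 1 (fun t => 1 - (if t = 0 then 2 else 0))
      (by intro t; split_ifs <;> norm_num)
      (by rw [Finset.sum_sub_distrib]; simp))
  rw [bil_vec] at hk1
  have e1 : ∑ i : Fin 14, (((1 - (if i = 0 then 2 else 0) : ℤ)) : ℝ) / 2 * y i.succ =
      (∑ i : Fin 14, y i.succ) / 2 - y (Fin.succ 0) := by
    push_cast
    simp only [sub_div, sub_mul, Finset.sum_sub_distrib, ite_div, ite_mul, zero_div, zero_mul,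
      Finset.sum_ite_eq', Finset.mem_univ, if_true]
    rw [Finset.sum_div]
    congr 1
    · apply Finset.sum_congr rfl
      intro i _
      ring
    · rw [div_self (two_ne_zero), one_mul]
      rfl
  rw [e1, hy0] at hk1
  have hn : ∀ i : Fin 14, y i.succ = (K i i : ℝ) / 2 := by
    intro i
    rw [← hK i i]
    ring
  have e2 : (k0 : ℝ) / 2 + (∑ i : Fin 14, (K i i : ℝ)) / 4 - (K 0 0 : ℝ) / 2 = k1 := by
    rw [← hk1]
    have e3 : ((1 : ℤ) : ℝ) / Real.sqrt 2 * ((k0 : ℝ) / Real.sqrt 2) = (k0 : ℝ) / 2 := by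
      push_cast
      rw [div_mul_div_comm, hs2]
      ring
    rw [e3, hn 0]
    have e4 : ∑ i : Fin 14, y i.succ = (∑ i : Fin 14, (K i i : ℝ)) / 2 := by
      rw [Finset.sum_div]
      exact Finset.sum_congr rfl fun i _ => hn i
    rw [e4]
    ring
  have e5 : 2 * k0 + ∑ i : Fin 14, K i i - 2 * K 0 0 = 4 * k1 := by
    have : (2 : ℝ) * k0 + ∑ i : Fin 14, (K i i : ℝ) - 2 * K 0 0 = 4 * k1 := by
      rw [← e2]; ring
    exact_mod_cast this
  have hpar : ∀ i j : Fin 14, (2 : ℤ) ∣ K i i - K j j := by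
    intro i j
    have : (K i i : ℝ) - K j j = 2 * (K i j - K j j) := by
      rw [← hK i i, ← hK j j, ← hK i j]
      ring
    have h' : K i i - K j j = 2 * (K i j - K j j) := by exact_mod_cast this
    exact ⟨_, h'⟩
  refine ⟨Fin.cons k0 (fun i => K i i), ?_, ?_, ?_, ?_⟩
  · funext i
    refine Fin.cases ?_ (fun j => ?_) i
    · simpa [vec] using hy0
    · simpa [vec] using hn j
  · intro i j
    simpa using hpar i j
  · intro h
    have h' : (2 : ℤ) ∣ K 0 0 := h
    have hev : (2 : ℤ) ∣ ∑ i : Fin 14, K i i := by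
      apply Finset.dvd_sum
      intro i _
      have := hpar i 0
      omega
    change (4 : ℤ) ∣ 2 * k0 - ∑ i : Fin 14, K i i
    omega
  · intro h
    have h' : ¬ (2 : ℤ) ∣ K 0 0 := h
    have hev : (2 : ℤ) ∣ ∑ i : Fin 14, K i i := by
      have : ∑ i : Fin 14, K i i = ∑ i : Fin 14, (K i i - K 0 0) + 14 * K 0 0 := by
        rw [Finset.sum_sub_distrib]
        simp
      rw [this]
      apply dvd_add
      · exact Finset.dvd_sum fun i _ => hpar i 0
      · exact ⟨7 * K 0 0, by ring⟩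
    change (4 : ℤ) ∣ 2 * k0 + 2 - ∑ i : Fin 14, K i i
    omega

end Pool.Agent.Q110.Jac
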