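import Mathlib
import Pool.Agent.Q110.Jac.Defs
import Pool.Agent.Q110.Jac.A3

set_option autoImplicit false

namespace Pool.Agent.Q110.Jac

open UpperHalfPlane ModularForm MatrixGroups Filter Topology
open scoped Real

/-- what `dual_struct` says of the integer vector -/
def DS (m : Fin 15 → ℤ) : Prop :=
  (∀ i j : Fin 14, (2 : ℤ) ∣ m i.succ - m j.succ) ∧
    ((2 : ℤ) ∣ m 1 → (4 : ℤ) ∣ 2 * m 0 - ∑ i : Fin 14, m i.succ) ∧
    (¬ (2 : ℤ) ∣ m 1 → (4 : ℤ) ∣ 2 * m 0 + 2 - ∑ i : Fin 14, m i.succ)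

theorem DS_notin {m : Fin 15 → ℤ} (h : DS m) (hn : vec m ∉ L15) :
    ¬ (2 : ℤ) ∣ m 1 - m 0 ∧ (4 : ℤ) ∣ (∑ i : Fin 14, m i.succ) - 2 := by
  obtain ⟨h1, h2, h3⟩ := h
  have hmem : (2 : ℤ) ∣ m 1 - m 0 → (4 : ℤ) ∣ ∑ i : Fin 14, m i.succ → False := by
    intro a b
    refine hn ⟨m, rfl, fun i => ?_, b⟩
    refine Fin.cases ?_ (fun j => ?_) i
    · simp
    · have := h1 j 0
      have e : m j.succ - m 0 = (m j.succ - m (0 : Fin 14).succ) + (m 1 - m 0) := by
        have : (0 : Fin 14).succ = (1 : Fin 15) := rfl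
        rw [this]; ring
      rw [e]
      exact dvd_add this a
  generalize (∑ i : Fin 14, m i.succ) = s at *
  by_cases hp : (2 : ℤ) ∣ m 1
  · have h4 := h2 hp
    constructor
    · intro a
      refine hmem a ?_
      omega
    · by_contra hc
      refine hmem ?_ ?_ <;> omega
  · have h4 := h3 hp
    constructor
    · intro a
      refine hmem a ?_
      omega
    · by_contra hc
      refine hmem ?_ ?_ <;> omega

theorem index_two_aux {m m' : Fin 15 → ℤ} (h : DS m) (hn : vec m ∉ L15) (h' : DS m')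
    (hn' : vec m' ∉ L15) : vec m - vec m' ∈ L15 := by
  obtain ⟨a1, a2⟩ := DS_notin h hn
  obtain ⟨b1, b2⟩ := DS_notin h' hn'
  refine ⟨m + (-m'), by rw [vec_add, vec_neg, sub_eq_add_neg], fun i => ?_, ?_⟩
  · refine Fin.cases ?_ (fun j => ?_) i
    · simp
    · have c1 := h.1 j 0
      have c2 := h'.1 j 0
      have e : (0 : Fin 14).succ = (1 : Fin 15) := rfl
      rw [e] at c1 c2
      simp only [Pi.add_apply, Pi.neg_apply]
      omega
  · simp only [Pi.add_apply, Pi.neg_apply, Finset.sum_add_distrib, Finset.sum_neg_distrib]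
    generalize (∑ i : Fin 14, m i.succ) = s at *
    generalize (∑ i : Fin 14, m' i.succ) = s' at *
    omega

theorem index_two (y y' : Fin 15 → ℝ) (hy : y ∈ dual L15) (hy' : y' ∈ dual L15) (h : y ∉ L15)
    (h' : y' ∉ L15) : y - y' ∈ L15 := by
  obtain ⟨m, rfl, hm⟩ := dual_struct y hy
  obtain ⟨m', rfl, hm'⟩ := dual_struct y' hy'
  exact index_two_aux hm h hm' h'

end Pool.Agent.Q110.Jac
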