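import Mathlib
import Pool.Agent.Q110.Jac.Defs

/-! Minimal vectors of the cosets of `L15` in its dual. -/

set_option autoImplicit false

open UpperHalfPlane ModularForm MatrixGroups Filter Topology
open scoped Real

namespace Pool.Agent.Q110.Jac

theorem bil_split (x y : Fin 15 → ℝ) :
    bil x y = x 0 * y 0 + ∑ i : Fin 14, x i.succ * y i.succ := by
  rw [bil, Fin.sum_univ_succ]

theorem vec_zero_coord (m : Fin 15 → ℤ) : vec m 0 = (m 0 : ℝ) / Real.sqrt 2 := by
  simp [vec]

theorem vec_succ_coord (m : Fin 15 → ℤ) (i : Fin 14) : vec m i.succ = (m i.succ : ℝ) / 2 := by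
  simp [vec, Fin.succ_ne_zero]

theorem bil_vec (m k : Fin 15 → ℤ) :
    bil (vec m) (vec k) = (m 0 * k 0 : ℝ) / 2 + (∑ i : Fin 14, (m i.succ * k i.succ : ℝ)) / 4 := by
  rw [bil_split, vec_zero_coord, vec_zero_coord, Finset.sum_div]
  congr 1
  · rw [div_mul_div_comm, Real.mul_self_sqrt (by norm_num)]
  · refine Finset.sum_congr rfl fun i _ => ?_
    rw [vec_succ_coord, vec_succ_coord]
    ring

/-- the vector `(1; 2, 0, ..., 0)` -/
def wv : Fin 15 → ℤ := fun i => if i = 0 then 1 else if i = 1 then 2 else 0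

theorem wv_sum (f : Fin 15 → ℝ) :
    ∑ i : Fin 14, (f i.succ * (wv i.succ : ℝ)) = f 1 * 2 := by
  rw [Finset.sum_eq_single 0]
  · simp [wv, Fin.succ_ne_zero]
  · intro i _ hi
    have h1 : i.succ ≠ 1 := by
      intro h
      exact hi (Fin.succ_injective _ (by simpa using h))
    simp [wv, Fin.succ_ne_zero, h1]
  · intro h
    exact absurd (Finset.mem_univ _) h

theorem wv_mem : vec wv ∈ dual L15 := by
  rintro x ⟨m, rfl, h1, -⟩
  rw [bil_vec, wv_sum (fun i => (m i : ℝ))]
  obtain ⟨k, hk⟩ := h1 1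
  refine ⟨m 0 + k, ?_⟩
  have hk' : (m 1 : ℝ) = m 0 + 2 * k := by
    have : m 1 = m 0 + 2 * k := by linarith
    exact_mod_cast this
  rw [hk']
  simp only [wv, if_true]
  push_cast
  ring

theorem wv_norm : bil (vec wv) (vec wv) = 3 / 2 := by
  rw [bil_vec, wv_sum (fun i => (wv i : ℝ))]
  simp only [wv, if_true]
  norm_num

theorem vec_inj {m k : Fin 15 → ℤ} (h : vec m = vec k) : m = k := by
  have hs : Real.sqrt 2 ≠ 0 := by positivity
  funext i
  refine Fin.cases ?_ (fun j => ?_) i
  · have h0 := congrFun h 0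
    rw [vec_zero_coord, vec_zero_coord, div_left_inj' hs] at h0
    exact_mod_cast h0
  · have h0 := congrFun h j.succ
    rw [vec_succ_coord, vec_succ_coord, div_left_inj' two_ne_zero] at h0
    exact_mod_cast h0

theorem wv_not_mem : vec wv ∉ L15 := by
  rintro ⟨m, hm, h1, -⟩
  have e := vec_inj hm
  have h2 := h1 1
  rw [← e] at h2
  simp [wv] at h2

theorem eq_zero_of_norm {x : Fin 15 → ℝ} (h : bil x x ≤ 0) : x = 0 := by
  have h0 : ∀ i ∈ Finset.univ, 0 ≤ x i * x i := fun i _ => mul_self_nonneg _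
  have h1 : ∑ i, x i * x i = 0 := le_antisymm h (Finset.sum_nonneg h0)
  rw [Finset.sum_eq_zero_iff_of_nonneg h0] at h1
  funext i
  exact mul_self_eq_zero.1 (h1 i (Finset.mem_univ i))

theorem minimal_aux
    (hS : ∀ y ∈ dual L15, ∃ m : Fin 15 → ℤ, y = vec m ∧
      (∀ i j : Fin 14, (2 : ℤ) ∣ m i.succ - m j.succ) ∧
      ((2 : ℤ) ∣ m 1 → (4 : ℤ) ∣ 2 * m 0 - ∑ i : Fin 14, m i.succ) ∧
      (¬ (2 : ℤ) ∣ m 1 → (4 : ℤ) ∣ 2 * m 0 + 2 - ∑ i : Fin 14, m i.succ))
    (hI : ∀ y y' : Fin 15 → ℝ, y ∈ dual L15 → y' ∈ dual L15 → y ∉ L15 → y' ∉ L15 →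
      y - y' ∈ L15)
    (y : Fin 15 → ℝ) (hy : y ∈ dual L15)
    (h : ∀ y' ∈ dual L15, y' - y ∈ L15 → bil y y ≤ bil y' y') :
    y = 0 ∨ (y ∉ L15 ∧ (y 0) ^ 2 = 1 / 2 ∧ ∑ i : Fin 14, (y i.succ) ^ 2 = 1) := by
  by_cases hL : y ∈ L15
  · left
    have h1 := h 0 (zero_mem _) (by rw [zero_sub]; exact neg_mem hL)
    exact eq_zero_of_norm (h1.trans (by simp [bil]))
  · right
    refine ⟨hL, ?_⟩
    have h1 := h (vec wv) wv_mem (hI _ _ wv_mem hy wv_not_mem hL)
    rw [wv_norm] at h1
    obtain ⟨m, rfl, hpar, heven, hodd⟩ := hS y hy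
    have hp : ∀ i : Fin 14, (2 : ℤ) ∣ m i.succ - m 1 := fun i => hpar i 0
    rw [bil_vec] at h1
    have h2 : 2 * (m 0 * m 0) + ∑ i : Fin 14, m i.succ * m i.succ ≤ 6 := by
      have : (2 * (m 0 * m 0) + ∑ i : Fin 14, (m i.succ * m i.succ : ℝ)) ≤ 6 := by linarith
      exact_mod_cast this
    by_cases hm1 : (2 : ℤ) ∣ m 1
    · -- even type
      have hm0 : ¬ (2 : ℤ) ∣ m 0 := by
        intro hm0
        refine hL ⟨m, rfl, fun i => ?_, ?_⟩
        · refine Fin.cases ?_ (fun j => ?_) i
          · simp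
          · have := hp j
            omega
        · have := heven hm1
          omega
      have hall : ∀ i : Fin 14, (2 : ℤ) ∣ m i.succ := fun i => by
        have := hp i
        omega
      choose a ha using hall
      have hsum : ∑ i : Fin 14, m i.succ = 2 * ∑ i, a i := by
        rw [Finset.mul_sum]
        exact Finset.sum_congr rfl fun i _ => ha i
      have hsq : ∑ i : Fin 14, m i.succ * m i.succ = 4 * ∑ i, a i * a i := by
        rw [Finset.mul_sum]
        refine Finset.sum_congr rfl fun i _ => ?_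
        rw [ha i]
        ring
      have hpar2 : (2 : ℤ) ∣ ∑ i, a i * a i - ∑ i, a i := by
        rw [← Finset.sum_sub_distrib]
        refine Finset.dvd_sum fun i _ => ?_
        have : a i * a i - a i = a i * (a i - 1) := by ring
        rw [this]
        exact (Int.even_mul_pred_self (a i)).two_dvd
      have h3 := heven hm1
      rw [hsum] at h3
      rw [hsq] at h2
      have hA0 : 0 ≤ ∑ i, a i * a i := Finset.sum_nonneg fun i _ => mul_self_nonneg _
      have hm00 : m 0 * m 0 ≤ 3 := by linarith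
      have hm01 : m 0 * m 0 = 1 := by
        have hl : -1 ≤ m 0 := by nlinarith
        have hu : m 0 ≤ 1 := by nlinarith
        interval_cases hh : m 0
        · norm_num
        · exact absurd (dvd_zero _) hm0
        · norm_num
      have hA1 : ∑ i, a i * a i = 1 := by
        have hle : ∑ i, a i * a i ≤ 1 := by linarith
        have hodd' : ¬ (2 : ℤ) ∣ ∑ i, a i * a i := by
          intro hc
          apply hm0
          omega
        have : ∑ i, a i * a i ≠ 0 := fun hc => hodd' (by rw [hc]; exact dvd_zero _)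
        omega
      have hR : ((m 0 : ℝ)) ^ 2 = 1 := by
        rw [sq]
        exact_mod_cast hm01
      refine ⟨?_, ?_⟩
      · rw [vec_zero_coord, div_pow, Real.sq_sqrt (by norm_num), hR]
      · have h5 : ∀ i : Fin 14, (vec m i.succ) ^ 2 = ((a i * a i : ℤ) : ℝ) := by
          intro i
          rw [vec_succ_coord, ha i]
          push_cast
          ring
        rw [Finset.sum_congr rfl fun i _ => h5 i, ← Int.cast_sum, hA1]
        norm_num
    · -- odd type
      exfalso
      have h5 : ∀ i : Fin 14, (1 : ℤ) ≤ m i.succ * m i.succ := by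
        intro i
        have hne : m i.succ ≠ 0 := by
          intro h0
          have := hp i
          rw [h0] at this
          omega
        have := mul_self_pos.2 hne
        omega
      have h6 : (14 : ℤ) ≤ ∑ i : Fin 14, m i.succ * m i.succ := by
        calc (14 : ℤ) = ∑ _i : Fin 14, (1 : ℤ) := by simp
          _ ≤ _ := Finset.sum_le_sum fun i _ => h5 i
      have := mul_self_nonneg (m 0)
      linarith

end Pool.Agent.Q110.Jac
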