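import Mathlib
import Pool.Agent.Q110.Jac.A5pre
import Pool.Agent.Q110.Jac.A3
import Pool.Agent.Q110.Jac.A4

/-! Minimal vectors of the cosets of `L15` in its dual. -/

set_option autoImplicit false

open UpperHalfPlane ModularForm MatrixGroups Filter Topology
open scoped Real

namespace Pool.Agent.Q110.Jac

theorem minimal_L15 (y : Fin 15 → ℝ) (hy : y ∈ dual L15)
    (h : ∀ y' ∈ dual L15, y' - y ∈ L15 → bil y y ≤ bil y' y') :
    y = 0 ∨ (y ∉ L15 ∧ (y 0) ^ 2 = 1 / 2 ∧ ∑ i : Fin 14, (y i.succ) ^ 2 = 1) :=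
  minimal_aux dual_struct index_two y hy h

end Pool.Agent.Q110.Jac
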