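import Mathlib
import Pool.Agent.Q110.Jac.Defs

set_option autoImplicit false

open UpperHalfPlane ModularForm MatrixGroups Filter Topology
open scoped Real

namespace Pool.Agent.Q110.Jac

namespace A6

theorem bil_comm {n : ℕ} (x y : Fin n → ℝ) : bil x y = bil y x := by
  unfold bil
  exact Finset.sum_congr rfl fun i _ => mul_comm _ _

theorem bil_add_left {n : ℕ} (x y z : Fin n → ℝ) : bil (x + y) z = bil x z + bil y z := by
  unfold bil
  rw [← Finset.sum_add_distrib]
  exact Finset.sum_congr rfl fun i _ => by rw [Pi.add_apply]; ring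

theorem bil_add_right {n : ℕ} (x y z : Fin n → ℝ) : bil x (y + z) = bil x y + bil x z := by
  rw [bil_comm, bil_add_left, bil_comm y x, bil_comm z x]

theorem bil_self_vec (m : Fin 15 → ℤ) : bil (vec m) (vec m) =
    (m 0 : ℝ) ^ 2 / 2 + ∑ i : Fin 14, (m i.succ : ℝ) ^ 2 / 4 := by
  unfold bil
  rw [Fin.sum_univ_succ]
  congr 1
  · simp only [vec, if_true]
    rw [div_mul_div_comm, ← sq, ← sq, Real.sq_sqrt (by norm_num)]
  · refine Finset.sum_congr rfl fun i _ => ?_
    simp only [vec, if_neg (Fin.succ_ne_zero i)]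
    ring

theorem min_norm (x : Fin 15 → ℝ) (hx : x ∈ L15) (h0 : x ≠ 0) : 2 ≤ bil x x := by
  obtain ⟨m, rfl, h1, h2⟩ := hx
  rw [bil_self_vec]
  have hnn : ∀ i : Fin 14, 0 ≤ (m i.succ : ℝ) ^ 2 / 4 := fun i => by positivity
  rcases Int.emod_two_eq_zero_or_one (m 0) with hp | hp
  · by_cases hm : m 0 = 0
    · -- all even
      have hk : ∀ i : Fin 14, ∃ k : ℤ, m i.succ = 2 * k := by
        intro i
        obtain ⟨c, hc⟩ := h1 i.succ
        exact ⟨c, by rw [hm, sub_zero] at hc; exact hc⟩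
      choose k hk using hk
      have e1 : ∑ i : Fin 14, (m i.succ : ℝ) ^ 2 / 4 = ((∑ i : Fin 14, (k i) ^ 2 : ℤ) : ℝ) := by
        push_cast
        refine Finset.sum_congr rfl fun i _ => ?_
        rw [hk i]
        push_cast
        ring
      have e2 : (2 : ℤ) ∣ ∑ i : Fin 14, k i := by
        have : ∑ i : Fin 14, m i.succ = 2 * ∑ i : Fin 14, k i := by
          rw [Finset.mul_sum]
          exact Finset.sum_congr rfl fun i _ => hk i
        rw [this] at h2
        omega
      have e3 : (2 : ℤ) ∣ ∑ i : Fin 14, (k i) ^ 2 := by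
        have e4 : ∑ i : Fin 14, (k i) ^ 2 = ∑ i : Fin 14, (k i * (k i - 1)) + ∑ i : Fin 14, k i := by
          rw [← Finset.sum_add_distrib]
          exact Finset.sum_congr rfl fun i _ => by ring
        rw [e4]
        refine dvd_add (Finset.dvd_sum fun i _ => ?_) e2
        exact (Int.even_mul_pred_self (k i)).two_dvd
      have e5 : 0 < ∑ i : Fin 14, (k i) ^ 2 := by
        refine lt_of_le_of_ne (Finset.sum_nonneg fun i _ => sq_nonneg _) fun h => ?_
        have h3 := (Finset.sum_eq_zero_iff_of_nonneg (fun i _ => sq_nonneg (k i))).1 h.symm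
        apply h0
        funext i
        refine Fin.cases ?_ (fun i => ?_) i
        · simp [vec, hm]
        · have := h3 i (Finset.mem_univ _)
          have h4 : k i = 0 := by simpa using this
          simp [vec, hk i, h4]
      have e6 : 2 ≤ ∑ i : Fin 14, (k i) ^ 2 := by omega
      rw [e1, hm]
      have e7 : (2 : ℝ) ≤ ((∑ i : Fin 14, (k i) ^ 2 : ℤ) : ℝ) := by exact_mod_cast e6
      simp only [Int.cast_zero]
      linarith
    · have h4 : (4 : ℝ) ≤ (m 0 : ℝ) ^ 2 := by
        have : 4 ≤ (m 0) ^ 2 := by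
          rcases lt_or_gt_of_ne hm with h | h
          · have : m 0 ≤ -2 := by omega
            nlinarith
          · have : 2 ≤ m 0 := by omega
            nlinarith
        exact_mod_cast this
      have := Finset.sum_nonneg (fun i (_ : i ∈ (Finset.univ : Finset (Fin 14))) => hnn i)
      linarith
  · have h5 : ∀ i : Fin 14, (1 / 4 : ℝ) ≤ (m i.succ : ℝ) ^ 2 / 4 := by
      intro i
      have h6 : 1 ≤ (m i.succ) ^ 2 := by
        have := h1 i.succ
        have h7 : m i.succ ≠ 0 := by omega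
        have h8 := sq_nonneg (m i.succ)
        have : (m i.succ) ^ 2 ≠ 0 := pow_ne_zero 2 h7
        omega
      have h9 : (1 : ℝ) ≤ (m i.succ : ℝ) ^ 2 := by exact_mod_cast h6
      linarith
    have h10 := Finset.sum_le_sum (fun i (_ : i ∈ (Finset.univ : Finset (Fin 14))) => h5 i)
    rw [Finset.sum_const, Finset.card_univ, Fintype.card_fin] at h10
    have h11 : 0 ≤ (m 0 : ℝ) ^ 2 := sq_nonneg _
    norm_num at h10
    linarith

/-- the roots used -/
noncomputable def R (j : Fin 15) (s : ℤ) : Fin 15 → ℝ := Pi.single 1 1 + Pi.single j (s : ℝ)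

theorem bil_R (j : Fin 15) (s : ℤ) (y : Fin 15 → ℝ) : bil (R j s) y = y 1 + s * y j := by
  unfold R
  rw [bil_add_left]
  unfold bil
  simp [Pi.single_apply]

theorem R_mem (j : Fin 15) (h0 : j ≠ 0) (s : ℤ) (hs : s = 1 ∨ s = -1) :
    R j s ∈ L15 := by
  refine ⟨Pi.single 1 2 + Pi.single j (2 * s), ?_, ?_, ?_⟩
  · funext i
    unfold R vec
    by_cases hi : i = 0
    · subst hi
      simp [Pi.single_apply, h0.symm]
    · rw [if_neg hi]
      simp only [Pi.add_apply, Pi.single_apply]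
      split_ifs <;> push_cast <;> ring
  · intro i
    simp only [Pi.add_apply, Pi.single_apply]
    split_ifs <;> omega
  · have h : ∑ i : Fin 15, (Pi.single 1 2 + Pi.single j (2 * s) : Fin 15 → ℤ) i = 2 + 2 * s := by
      simp only [Pi.add_apply, Finset.sum_add_distrib]
      simp
    rw [Fin.sum_univ_succ] at h
    have h2 : (Pi.single 1 2 + Pi.single j (2 * s) : Fin 15 → ℤ) 0 = 0 := by
      simp [Pi.single_apply, h0.symm]
    rw [h2, zero_add] at h
    rw [h]
    rcases hs with rfl | rfl <;> norm_num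

theorem half (A B : AddSubgroup (Fin 15 → ℝ)) (hAB : A ⊔ B = L15)
    (horth : ∀ a ∈ A, ∀ b ∈ B, bil a b = 0)
    (hR : ∀ j : Fin 15, j ≠ 0 → j ≠ 1 → ∀ s : ℤ, (s = 1 ∨ s = -1) → R j s ∈ A) : B = ⊥ := by
  have hB0 : ∀ b ∈ B, ∀ j : Fin 15, j ≠ 0 → b j = 0 := by
    intro b hb
    have key : ∀ j : Fin 15, j ≠ 0 → j ≠ 1 → b 1 = 0 ∧ b j = 0 := by
      intro j hj hj1
      have h1 := horth _ (hR j hj hj1 1 (Or.inl rfl)) b hb
      have h2 := horth _ (hR j hj hj1 (-1) (Or.inr rfl)) b hb
      rw [bil_R] at h1 h2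
      push_cast at h1 h2
      constructor <;> linarith
    intro j hj
    by_cases hj1 : j = 1
    · rw [hj1]
      exact (key 2 (by decide) (by decide)).1
    · exact (key j hj hj1).2
  -- the odd vector
  have hx : vec (fun k => if k = 1 then -1 else 1) ∈ L15 := by
    refine ⟨fun k => if k = 1 then -1 else 1, rfl, by decide, by decide⟩
  rw [← hAB, AddSubgroup.mem_sup] at hx
  obtain ⟨a, ha, b, hb, hab⟩ := hx
  have hbL : b ∈ L15 := by
    rw [← hAB]
    exact AddSubgroup.mem_sup_right hb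
  obtain ⟨m, hm, h1, -⟩ := hbL
  have hm1 : m 1 = 0 := by
    have := hB0 b hb 1 (by decide)
    rw [hm] at this
    simpa [vec] using this
  have heven : (2 : ℤ) ∣ m 0 := by
    have := h1 1
    rw [hm1] at this
    simpa using this
  have hs2 : Real.sqrt 2 ≠ 0 := by positivity
  have ha0 : a 0 ≠ 0 := by
    have h3 := congrFun hab 0
    rw [Pi.add_apply, hm] at h3
    simp only [vec, if_true] at h3
    have h4 : a 0 = ((1 - m 0 : ℤ) : ℝ) / Real.sqrt 2 := by
      rw [eq_sub_of_add_eq h3]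
      rw [if_neg (by decide : ¬ ((0 : Fin 15) = 1))]
      push_cast
      ring
    rw [h4]
    refine div_ne_zero ?_ hs2
    exact_mod_cast (show (1 - m 0 : ℤ) ≠ 0 by omega)
  rw [eq_bot_iff]
  intro b' hb'
  rw [AddSubgroup.mem_bot]
  have h5 := horth a ha b' hb'
  unfold bil at h5
  rw [Fin.sum_univ_succ] at h5
  have h6 : ∑ i : Fin 14, a i.succ * b' i.succ = 0 :=
    Finset.sum_eq_zero fun i _ => by rw [hB0 b' hb' i.succ (Fin.succ_ne_zero i), mul_zero]
  rw [h6, add_zero] at h5
  have h7 : b' 0 = 0 := (mul_eq_zero.1 h5).resolve_left ha0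
  funext i
  by_cases hi : i = 0
  · rw [hi, h7]; rfl
  · rw [hB0 b' hb' i hi]; rfl

theorem split (A B : AddSubgroup (Fin 15 → ℝ)) (hAB : A ⊔ B = L15)
    (horth : ∀ a ∈ A, ∀ b ∈ B, bil a b = 0) (x : Fin 15 → ℝ) (hx : x ∈ L15)
    (hx2 : bil x x = 2) : x ∈ A ∨ x ∈ B := by
  rw [← hAB, AddSubgroup.mem_sup] at hx
  obtain ⟨a, ha, b, hb, rfl⟩ := hx
  have haL : a ∈ L15 := by
    rw [← hAB]; exact AddSubgroup.mem_sup_left ha
  have hbL : b ∈ L15 := by
    rw [← hAB]; exact AddSubgroup.mem_sup_right hb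
  by_cases h1 : a = 0
  · right; rw [h1, zero_add]; exact hb
  by_cases h2 : b = 0
  · left; rw [h2, add_zero]; exact ha
  exfalso
  have e1 := min_norm a haL h1
  have e2 := min_norm b hbL h2
  rw [bil_add_left, bil_add_right, bil_add_right, horth a ha b hb, bil_comm b a,
    horth a ha b hb] at hx2
  linarith

theorem roots (A B : AddSubgroup (Fin 15 → ℝ)) (hAB : A ⊔ B = L15)
    (horth : ∀ a ∈ A, ∀ b ∈ B, bil a b = 0) (h2 : R 2 1 ∈ A) :
    ∀ j : Fin 15, j ≠ 0 → j ≠ 1 → ∀ s : ℤ, (s = 1 ∨ s = -1) → R j s ∈ A := by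
  have norm2 : ∀ j : Fin 15, j ≠ 1 → ∀ s : ℤ, (s = 1 ∨ s = -1) → bil (R j s) (R j s) = 2 := by
    intro j hj s hs
    rw [bil_R]
    unfold R
    simp only [Pi.add_apply, Pi.single_apply, if_true, if_neg hj, if_neg hj.symm]
    rcases hs with rfl | rfl <;> norm_num
  have step : ∀ i j : Fin 15, i ≠ 0 → i ≠ 1 → j ≠ 0 → j ≠ 1 → i ≠ j → ∀ s t : ℤ,
      (t = 1 ∨ t = -1) → R i s ∈ A → R j t ∈ A := by
    intro i j hi hi1 hj hj1 hij s t ht hs
    rcases split A B hAB horth (R j t) (R_mem j hj t ht) (norm2 j hj1 t ht) with h | h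
    · exact h
    · exfalso
      have h3 := horth _ hs _ h
      rw [bil_R] at h3
      unfold R at h3
      simp only [Pi.add_apply, Pi.single_apply, if_true, if_neg hi1, if_neg hj1.symm, if_neg hij] at h3
      norm_num at h3
  have h3 : R 3 1 ∈ A := step 2 3 (by decide) (by decide) (by decide) (by decide) (by decide) 1 1
    (Or.inl rfl) h2
  intro j hj hj1 s hs
  by_cases hj2 : j = 2
  · subst hj2
    exact step 3 2 (by decide) (by decide) (by decide) (by decide) (by decide) 1 s hs h3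
  · exact step 2 j (by decide) (by decide) hj hj1 (Ne.symm hj2) 1 s hs h2

end A6

theorem irred_L15 : IsIrred L15 := by
  intro A B hAB horth
  have hn : bil (A6.R 2 1) (A6.R 2 1) = 2 := by
    rw [A6.bil_R]
    unfold A6.R
    simp [Pi.single_apply]
    norm_num
  have horth' : ∀ b ∈ B, ∀ a ∈ A, bil b a = 0 := by
    intro b hb a ha
    rw [A6.bil_comm]
    exact horth a ha b hb
  have hBA : B ⊔ A = L15 := by rw [sup_comm]; exact hAB
  rcases A6.split A B hAB horth (A6.R 2 1) (A6.R_mem 2 (by decide) 1 (Or.inl rfl)) hn with h | h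
  · right
    exact A6.half A B hAB horth (A6.roots A B hAB horth h)
  · left
    exact A6.half B A hBA horth' (A6.roots B A hBA horth' h)

end Pool.Agent.Q110.Jac
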