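import Mathlib
import Pool.Agent.Q110.Jac.Defs

namespace Pool.Agent.Q110.Jac

open UpperHalfPlane ModularForm MatrixGroups Filter Topology
open scoped Real

/-- the character of the point `s` -/
noncomputable def chB1 {n : ℕ} (s x : Fin n → ℝ) : ℂ := Complex.exp (2 * π * Complex.I * (bil s x : ℂ))

theorem bil_add_right_B1 {n : ℕ} (s x y : Fin n → ℝ) : bil s (x + y) = bil s x + bil s y := by
  unfold bil
  simp only [Pi.add_apply, mul_add, Finset.sum_add_distrib]

theorem bil_sub_left_B1 {n : ℕ} (s t x : Fin n → ℝ) : bil (s - t) x = bil s x - bil t x := by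
  unfold bil
  simp only [Pi.sub_apply, sub_mul, Finset.sum_sub_distrib]

theorem bil_smul_right_B1 {n : ℕ} (c : ℝ) (s x : Fin n → ℝ) : bil s (c • x) = c * bil s x := by
  unfold bil
  simp only [Pi.smul_apply, smul_eq_mul, Finset.mul_sum]
  exact Finset.sum_congr rfl (fun i _ => by ring)

theorem ch_add_B1 {n : ℕ} (s x y : Fin n → ℝ) : chB1 s (x + y) = chB1 s x * chB1 s y := by
  unfold chB1
  rw [← Complex.exp_add, bil_add_right_B1]
  congr 1
  push_cast
  ring

theorem ch_sub_B1 {n : ℕ} (s t x : Fin n → ℝ) : chB1 (s - t) x * chB1 t x = chB1 s x := by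
  unfold chB1
  rw [← Complex.exp_add, bil_sub_left_B1]
  congr 1
  push_cast
  ring

theorem norm_ch_B1 {n : ℕ} (s x : Fin n → ℝ) : ‖chB1 s x‖ = 1 := by
  unfold chB1
  have : (2 * π * Complex.I * (bil s x : ℂ) : ℂ) = ((2 * π * bil s x : ℝ) : ℂ) * Complex.I := by
    push_cast; ring
  rw [this, Complex.norm_exp_ofReal_mul_I]

theorem exists_neg_B1 {n : ℕ} (s : Fin n → ℝ) (hs : s ≠ 0) : ∃ z : Fin n → ℝ, chB1 s z = -1 := by
  have hpos : 0 < bil s s := by
    unfold bil
    obtain ⟨i, hi⟩ := Function.ne_iff.1 hs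
    have h1 : ∀ j ∈ Finset.univ, 0 ≤ s j * s j := fun j _ => mul_self_nonneg _
    refine Finset.sum_pos' h1 ⟨i, Finset.mem_univ _, ?_⟩
    exact mul_self_pos.2 hi
  refine ⟨(1 / (2 * bil s s)) • s, ?_⟩
  unfold chB1
  rw [bil_smul_right_B1]
  have : (2 * π * Complex.I * ((1 / (2 * bil s s) * bil s s : ℝ) : ℂ) : ℂ) = π * Complex.I := by
    have h2 : (1 / (2 * bil s s) * bil s s : ℝ) = 1 / 2 := by
      field_simp
    rw [h2]
    push_cast
    ring
  rw [this, Complex.exp_pi_mul_I]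

theorem weights_B1 {n : ℕ} (S : AddSubgroup (Fin n → ℝ)) (a : S → ℂ) (ha : Summable a)
    (h : ∀ x : Fin n → ℝ, ∑' s : S, a s * chB1 (s : Fin n → ℝ) x = 0) (s₀ : S) (F : Finset S) :
    s₀ ∉ F → ∃ w : S → ℂ, (∀ s, ‖w s‖ ≤ 1) ∧ w s₀ = 1 ∧ (∀ s ∈ F, w s = 0) ∧
      ∀ x : Fin n → ℝ, ∑' s : S, a s * w s * chB1 (s : Fin n → ℝ) x = 0 := by
  classical
  induction F using Finset.induction_on with
  | empty =>
    intro _
    refine ⟨fun _ => 1, fun _ => by simp, rfl, by simp, ?_⟩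
    intro x
    simpa using h x
  | insert s₁ F hs ih =>
    intro hF
    rw [Finset.mem_insert, not_or] at hF
    obtain ⟨w, hw1, hw0, hwF, hw⟩ := ih hF.2
    have hne : (s₁ : Fin n → ℝ) - (s₀ : Fin n → ℝ) ≠ 0 := by
      intro h0
      exact hF.1 (Subtype.ext (sub_eq_zero.1 h0)).symm
    obtain ⟨z, hz⟩ := exists_neg_B1 _ hne
    have hsum : ∀ x : Fin n → ℝ, Summable fun s : S => a s * w s * chB1 (s : Fin n → ℝ) x := by
      intro x
      apply Summable.of_norm_bounded ha.norm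
      intro s
      rw [norm_mul, norm_mul, norm_ch_B1, mul_one]
      exact mul_le_of_le_one_right (norm_nonneg _) (hw1 s)
    refine ⟨fun s => w s * ((1 + chB1 ((s : Fin n → ℝ) - (s₀ : Fin n → ℝ)) z) / 2), ?_, ?_, ?_, ?_⟩
    · intro s
      rw [norm_mul, norm_div]
      have h1 : ‖(1 : ℂ) + chB1 ((s : Fin n → ℝ) - (s₀ : Fin n → ℝ)) z‖ ≤ 2 := by
        refine (norm_add_le _ _).trans ?_
        rw [norm_ch_B1, norm_one]
        norm_num
      have h2 : ‖(1 : ℂ) + chB1 ((s : Fin n → ℝ) - (s₀ : Fin n → ℝ)) z‖ / ‖(2 : ℂ)‖ ≤ 1 := by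
        rw [show ‖(2 : ℂ)‖ = 2 by norm_num, div_le_one (by norm_num)]
        exact h1
      exact mul_le_one₀ (hw1 s) (by positivity) h2
    · have : chB1 ((s₀ : Fin n → ℝ) - (s₀ : Fin n → ℝ)) z = 1 := by
        rw [sub_self]
        unfold chB1 bil
        simp
      simp only [hw0, this]
      norm_num
    · intro s hsF
      rw [Finset.mem_insert] at hsF
      rcases hsF with rfl | hsF
      · simp only [hz]
        norm_num
      · simp only [hwF s hsF, zero_mul]
    · intro x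
      have e : ∀ s : S, a s * (w s * ((1 + chB1 ((s : Fin n → ℝ) - (s₀ : Fin n → ℝ)) z) / 2)) * chB1 (s : Fin n → ℝ) x =
          (1 / 2) * (a s * w s * chB1 (s : Fin n → ℝ) x) +
          (1 / 2) * (chB1 (s₀ : Fin n → ℝ) z)⁻¹ * (a s * w s * chB1 (s : Fin n → ℝ) (x + z)) := by
        intro s
        have h1 := ch_sub_B1 (s : Fin n → ℝ) s₀ z
        have h0 : chB1 (s₀ : Fin n → ℝ) z ≠ 0 := by
          intro h0
          have := norm_ch_B1 (s₀ : Fin n → ℝ) z
          rw [h0] at this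
          simp at this
        have h2 : chB1 ((s : Fin n → ℝ) - (s₀ : Fin n → ℝ)) z = (chB1 (s₀ : Fin n → ℝ) z)⁻¹ * chB1 (s : Fin n → ℝ) z := by
          rw [← h1]
          field_simp
        rw [h2, ch_add_B1]
        ring
      simp only [e]
      rw [Summable.tsum_add ((hsum x).mul_left _) ((hsum (x + z)).mul_left _), tsum_mul_left, tsum_mul_left,
        hw x, hw (x + z)]
      ring

theorem char_unique {n : ℕ} (S : AddSubgroup (Fin n → ℝ)) (a : S → ℂ) (ha : Summable a)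
    (h : ∀ x : Fin n → ℝ, ∑' s : S, a s * Complex.exp (2 * π * Complex.I * (bil (s : Fin n → ℝ) x : ℂ)) = 0) :
    ∀ s, a s = 0 := by
  classical
  intro s₀
  by_contra hs₀
  have hpos : 0 < ‖a s₀‖ := norm_pos_iff.2 hs₀
  have ht := tendsto_tsum_compl_atTop_zero (fun s : S => ‖a s‖)
  have hev : ∀ᶠ G : Finset S in atTop, (∑' s : {x // x ∉ G}, ‖a s‖) < ‖a s₀‖ := ht.eventually_lt_const hpos
  obtain ⟨G, hG, hGs⟩ := (hev.and (eventually_ge_atTop {s₀})).exists
  have hs₀G : s₀ ∈ G := hGs (Finset.mem_singleton_self _)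
  obtain ⟨w, hw1, hw0, hwF, hw⟩ := weights_B1 S a ha h s₀ (G.erase s₀) (Finset.notMem_erase _ _)
  have h0 := hw 0
  have e0 : ∀ s : S, a s * w s * chB1 (s : Fin n → ℝ) 0 = a s * w s := by
    intro s
    have : chB1 (s : Fin n → ℝ) 0 = 1 := by
      unfold chB1 bil
      simp
    rw [this, mul_one]
  simp only [e0] at h0
  have hsum : Summable fun s : S => a s * w s := by
    apply Summable.of_norm_bounded ha.norm
    intro s
    rw [norm_mul]
    exact mul_le_of_le_one_right (norm_nonneg _) (hw1 s)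
  have h1 := hsum.sum_add_tsum_subtype_compl G
  rw [h0] at h1
  have h2 : ∑ s ∈ G, a s * w s = a s₀ := by
    rw [← Finset.add_sum_erase _ _ hs₀G, hw0, mul_one, Finset.sum_eq_zero, add_zero]
    intro s hs
    rw [hwF s hs, mul_zero]
  rw [h2] at h1
  have h3 : ‖∑' s : {x // x ∉ G}, a s * w s‖ ≤ ∑' s : {x // x ∉ G}, ‖a s‖ := by
    have hsa : Summable fun s : {x // x ∉ G} => ‖a s‖ := ha.norm.subtype _
    apply tsum_of_norm_bounded hsa.hasSum
    intro s
    rw [norm_mul]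
    exact mul_le_of_le_one_right (norm_nonneg _) (hw1 s)
  have h4 : ‖a s₀‖ = ‖∑' s : {x // x ∉ G}, a s * w s‖ := by
    rw [eq_neg_of_add_eq_zero_left h1, norm_neg]
  linarith

end Pool.Agent.Q110.Jac
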