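import Mathlib
import Pool.Agent.Q110.Jac.Defs

set_option autoImplicit false

open UpperHalfPlane ModularForm MatrixGroups Filter Topology
open scoped Real

namespace Pool.Agent.Q110.Jac

/-- a point of the upper half plane with a given real `q` -/
theorem B2.exists_tau (q : ℝ) (h0 : 0 < q) (h1 : q < 1) :
    ∃ τ : ℍ, ∀ n : ℂ, Complex.exp (2 * π * Complex.I * n * τ) = Complex.exp (n * (Real.log q : ℂ)) := by
  have hl : Real.log q < 0 := Real.log_neg h0 h1
  have hp : 0 < -Real.log q / (2 * π) := div_pos (by linarith) (by positivity)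
  refine ⟨⟨((-Real.log q / (2 * π) : ℝ) : ℂ) * Complex.I, ?_⟩, fun n => ?_⟩
  · have e : (((-Real.log q / (2 * π) : ℝ) : ℂ) * Complex.I).im = -Real.log q / (2 * π) := by
      rw [Complex.im_ofReal_mul, Complex.I_im, mul_one]
    rw [e]
    exact hp
  · congr 1
    have hpi : (π : ℂ) ≠ 0 := by exact_mod_cast Real.pi_ne_zero
    show 2 * π * Complex.I * n * (((-Real.log q / (2 * π) : ℝ) : ℂ) * Complex.I) = _
    push_cast
    field_simp
    linear_combination (-(Real.log q : ℂ)) * n * Complex.I_sq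

theorem B2.exp_nat (q : ℝ) (h0 : 0 < q) (n : ℕ) :
    Complex.exp ((n : ℂ) * (Real.log q : ℂ)) = (q : ℂ) ^ n := by
  rw [Complex.exp_nat_mul, ← Complex.ofReal_exp, Real.exp_log h0]

theorem B2.zero_of_tsum (a : ℕ → ℂ) (ha : ∀ q : ℝ, 0 < q → q < 1 → Summable fun n => a n * (q : ℂ) ^ n)
    (h : ∀ q : ℝ, 0 < q → q < 1 → ∑' n, a n * (q : ℂ) ^ n = 0) : ∀ n, a n = 0 := by
  intro n
  induction n using Nat.strong_induction_on with
  | _ n ih =>
    have hF : ∀ q : ℝ, 0 < q → q < 1 → ∑' k, a (k + n) * (q : ℂ) ^ k = 0 := by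
      intro q h0 h1
      have h2 := (ha q h0 h1).sum_add_tsum_nat_add n
      rw [h q h0 h1, Finset.sum_eq_zero, zero_add] at h2
      · have h3 : ∀ k, a (k + n) * (q : ℂ) ^ (k + n) = (a (k + n) * (q : ℂ) ^ k) * (q : ℂ) ^ n := by
          intro k; rw [pow_add]; ring
        simp_rw [h3] at h2
        rw [tsum_mul_right] at h2
        have hq : (q : ℂ) ^ n ≠ 0 := pow_ne_zero _ (by exact_mod_cast h0.ne')
        exact (mul_eq_zero.1 h2).resolve_right hq
      · intro k hk
        rw [ih k (Finset.mem_range.1 hk), zero_mul]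
    have hs : Summable fun k => ‖a (k + n)‖ * (1 / 2 : ℝ) ^ k := by
      have h2 := (summable_nat_add_iff n).2 (ha (1 / 2) (by norm_num) (by norm_num)).norm
      have h3 := h2.mul_left ((2 : ℝ) ^ n)
      refine h3.congr fun k => ?_
      rw [norm_mul, norm_pow, Complex.norm_real, Real.norm_eq_abs, abs_of_pos (by norm_num : (0:ℝ) < 1 / 2),
        pow_add]
      have : (2 : ℝ) ^ n * (1 / 2) ^ n = 1 := by
        rw [← mul_pow]; norm_num
      linear_combination (‖a (k + n)‖ * (1 / 2) ^ k) * this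
    have ht : Tendsto (fun q : ℝ => ∑' k, a (k + n) * (q : ℂ) ^ k) (𝓝[>] 0)
        (𝓝 (∑' k, a (k + n) * (0 : ℂ) ^ k)) := by
      refine tendsto_tsum_of_dominated_convergence hs (fun k => ?_) ?_
      · have hc : Continuous fun q : ℝ => a (k + n) * (q : ℂ) ^ k := by fun_prop
        have := (hc.tendsto 0).mono_left (nhdsWithin_le_nhds (s := Set.Ioi 0))
        simpa using this
      · have h2 : ∀ᶠ q : ℝ in 𝓝[>] 0, q ∈ Set.Ioo (0 : ℝ) (1 / 2) := Ioo_mem_nhdsGT (by norm_num)
        filter_upwards [h2] with q hq k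
        rw [norm_mul, norm_pow, Complex.norm_real, Real.norm_eq_abs, abs_of_pos hq.1]
        exact mul_le_mul_of_nonneg_left (pow_le_pow_left₀ hq.1.le hq.2.le k) (norm_nonneg _)
    have h0 : Tendsto (fun q : ℝ => ∑' k, a (k + n) * (q : ℂ) ^ k) (𝓝[>] 0) (𝓝 0) := by
      refine tendsto_nhds_of_eventually_eq ?_
      have h2 : ∀ᶠ q : ℝ in 𝓝[>] 0, q ∈ Set.Ioo (0 : ℝ) (1 / 2) := Ioo_mem_nhdsGT (by norm_num)
      filter_upwards [h2] with q hq
      exact hF q hq.1 (by linarith [hq.2])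
    have h4 := tendsto_nhds_unique ht h0
    rw [tsum_eq_single 0 (fun k hk => by rw [zero_pow hk, mul_zero])] at h4
    simpa using h4

/-- the case of a nonnegative shift -/
theorem B2.shift_nat (c d : ℕ → ℂ) (S : ℕ)
    (hc : ∀ q : ℝ, 0 < q → q < 1 → Summable fun n => c n * (q : ℂ) ^ n)
    (hd : ∀ q : ℝ, 0 < q → q < 1 → Summable fun n => d n * (q : ℂ) ^ n)
    (h : ∀ q : ℝ, 0 < q → q < 1 → ∑' n, c n * (q : ℂ) ^ n = (q : ℂ) ^ S * ∑' n, d n * (q : ℂ) ^ n) :
    (∀ m, c (m + S) = d m) ∧ ∀ n, n < S → c n = 0 := by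
  have hsum : ∀ q : ℝ, 0 < q → q < 1 →
      HasSum (fun n => (if n < S then 0 else d (n - S)) * (q : ℂ) ^ n)
        ((q : ℂ) ^ S * ∑' n, d n * (q : ℂ) ^ n) := by
    intro q h0 h1
    have h2 := (hd q h0 h1).hasSum.mul_left ((q : ℂ) ^ S)
    rw [← hasSum_nat_add_iff' S]
    have e1 : ∑ i ∈ Finset.range S, (if i < S then 0 else d (i - S)) * (q : ℂ) ^ i = 0 := by
      refine Finset.sum_eq_zero fun i hi => ?_
      rw [if_pos (Finset.mem_range.1 hi), zero_mul]
    rw [e1, sub_zero]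
    have e2 : (fun m => (if m + S < S then 0 else d (m + S - S)) * (q : ℂ) ^ (m + S)) =
        fun i => (q : ℂ) ^ S * (d i * (q : ℂ) ^ i) := by
      funext m
      rw [if_neg (by omega), Nat.add_sub_cancel, pow_add]
      ring
    rw [e2]
    exact h2
  have hz := B2.zero_of_tsum (fun n => c n - if n < S then 0 else d (n - S))
    (fun q h0 h1 => by
      have := (hc q h0 h1).sub (hsum q h0 h1).summable
      simpa only [sub_mul] using this)
    (fun q h0 h1 => by
      have h2 := (hc q h0 h1).hasSum.sub (hsum q h0 h1)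
      rw [h q h0 h1, sub_self] at h2
      simp only [sub_mul]
      exact h2.tsum_eq)
  refine ⟨fun m => ?_, fun n hn => ?_⟩
  · have := hz (m + S)
    simp only [Nat.add_sub_cancel] at this
    rw [if_neg (by omega)] at this
    exact sub_eq_zero.1 this
  · have := hz n
    simp only [if_pos hn, sub_zero] at this
    exact this

theorem qseries_shift (c d : ℕ → ℂ) (s : ℤ)
    (hc : ∀ τ : ℍ, Summable fun n : ℕ => c n * Complex.exp (2 * π * Complex.I * (n : ℂ) * τ))
    (hd : ∀ τ : ℍ, Summable fun n : ℕ => d n * Complex.exp (2 * π * Complex.I * (n : ℂ) * τ))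
    (h : ∀ τ : ℍ, ∑' n : ℕ, c n * Complex.exp (2 * π * Complex.I * (n : ℂ) * τ) =
      Complex.exp (2 * π * Complex.I * (s : ℂ) * τ) * ∑' n : ℕ, d n * Complex.exp (2 * π * Complex.I * (n : ℂ) * τ)) :
    (∀ n m : ℕ, (n : ℤ) = m + s → c n = d m) ∧ ∀ m : ℕ, (m : ℤ) + s < 0 → d m = 0 := by
  have hc' : ∀ q : ℝ, 0 < q → q < 1 → Summable fun n => c n * (q : ℂ) ^ n := by
    intro q h0 h1
    obtain ⟨τ, hτ⟩ := B2.exists_tau q h0 h1
    have := hc τ
    simpa only [hτ, B2.exp_nat q h0] using this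
  have hd' : ∀ q : ℝ, 0 < q → q < 1 → Summable fun n => d n * (q : ℂ) ^ n := by
    intro q h0 h1
    obtain ⟨τ, hτ⟩ := B2.exists_tau q h0 h1
    have := hd τ
    simpa only [hτ, B2.exp_nat q h0] using this
  have h' : ∀ q : ℝ, 0 < q → q < 1 → ∑' n, c n * (q : ℂ) ^ n =
      Complex.exp ((s : ℂ) * (Real.log q : ℂ)) * ∑' n, d n * (q : ℂ) ^ n := by
    intro q h0 h1
    obtain ⟨τ, hτ⟩ := B2.exists_tau q h0 h1
    have := h τ
    simpa only [hτ, B2.exp_nat q h0] using this
  rcases le_or_gt 0 s with hs | hs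
  · obtain ⟨S, rfl⟩ := Int.eq_ofNat_of_zero_le hs
    obtain ⟨h1, h2⟩ := B2.shift_nat c d S hc' hd' (fun q h0 h1 => by
      rw [h' q h0 h1]
      congr 1
      have := B2.exp_nat q h0 S
      rw [← this]
      push_cast
      rfl)
    refine ⟨fun n m hnm => ?_, fun m hm => ?_⟩
    · have : n = m + S := by omega
      rw [this]
      exact h1 m
    · omega
  · obtain ⟨S, hS⟩ := Int.eq_ofNat_of_zero_le (show 0 ≤ -s by omega)
    obtain ⟨h1, h2⟩ := B2.shift_nat d c S hd' hc' (fun q h0 h1 => by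
      rw [h' q h0 h1, ← mul_assoc]
      have e : (q : ℂ) ^ S * Complex.exp ((s : ℂ) * (Real.log q : ℂ)) = 1 := by
        rw [← B2.exp_nat q h0 S, ← Complex.exp_add]
        have : (S : ℂ) = -(s : ℂ) := by
          have : (S : ℤ) = -s := hS.symm
          have := congrArg (fun x : ℤ => (x : ℂ)) this
          simpa using this
        rw [this]
        simp
      rw [e, one_mul])
    refine ⟨fun n m hnm => ?_, fun m hm => ?_⟩
    · have : m = n + S := by omega
      rw [this]
      exact (h1 n).symm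
    · exact h2 m (by omega)

end Pool.Agent.Q110.Jac
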