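import Mathlib
import Pool.Agent.Q110.Jac.Defs

set_option autoImplicit false

open UpperHalfPlane ModularForm MatrixGroups Filter Topology
open scoped Real

namespace Pool.Agent.Q110.Jac

namespace B3

lemma norm_exp_eq (x : ℝ) (t : ℂ) :
    ‖Complex.exp (2 * π * Complex.I * (x : ℂ) * t)‖ = Real.exp (-(2 * π * x * t.im)) := by
  rw [Complex.norm_exp]
  congr 1
  simp [Complex.mul_re, Complex.mul_im]

lemma norm_exp_le (x : ℝ) (t : ℂ) {R : ℝ} (ht : ‖t‖ ≤ R) :
    ‖Complex.exp (2 * π * Complex.I * (x : ℂ) * t)‖ ≤ Real.exp (2 * π * |x| * R) := by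
  rw [norm_exp_eq]
  apply Real.exp_le_exp.2
  have h1 : |t.im| ≤ R := (Complex.abs_im_le_norm t).trans ht
  have h2 : -(x * t.im) ≤ |x| * R := by
    calc -(x * t.im) ≤ |x * t.im| := neg_le_abs _
      _ = |x| * |t.im| := abs_mul _ _
      _ ≤ |x| * R := mul_le_mul_of_nonneg_left h1 (abs_nonneg _)
  have h3 : 0 < π := Real.pi_pos
  nlinarith

lemma der {ι : Type*} (B : ι → ℂ) (r : ι → ℝ)
    (hs : ∀ R : ℝ, Summable fun i => ‖B i‖ * Real.exp (2 * π * |r i| * R)) (z : ℂ) :
    HasSum (fun i => B i * (2 * π * Complex.I * (r i : ℂ)) *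
        Complex.exp (2 * π * Complex.I * (r i : ℂ) * z))
      (deriv (fun w => ∑' i, B i * Complex.exp (2 * π * Complex.I * (r i : ℂ) * w)) z) := by
  have h := Complex.hasSum_deriv_of_summable_norm
    (F := fun i w => B i * Complex.exp (2 * π * Complex.I * (r i : ℂ) * w))
    (U := Metric.ball 0 (‖z‖ + 1)) (z := z) (hs (‖z‖ + 1))
    (fun i => by fun_prop) Metric.isOpen_ball
    (fun i w hw => by
      rw [norm_mul]
      refine mul_le_mul_of_nonneg_left ?_ (norm_nonneg _)
      apply norm_exp_le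
      have : ‖w‖ < ‖z‖ + 1 := by simpa using hw
      exact this.le)
    (by simp)
  have e : (fun i => B i * (2 * π * Complex.I * (r i : ℂ)) *
        Complex.exp (2 * π * Complex.I * (r i : ℂ) * z)) =
      fun i => deriv (fun w => B i * Complex.exp (2 * π * Complex.I * (r i : ℂ) * w)) z := by
    funext i
    have h1 : HasDerivAt (fun w : ℂ => Complex.exp (2 * π * Complex.I * (r i : ℂ) * w))
        (Complex.exp (2 * π * Complex.I * (r i : ℂ) * z) * (2 * π * Complex.I * (r i : ℂ) * 1)) z :=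
      ((hasDerivAt_id z).const_mul _).cexp
    rw [(h1.const_mul (B i)).deriv]
    ring
  rw [e]
  exact h

lemma sum_der {ι : Type*} (B : ι → ℂ) (r : ι → ℝ)
    (hs : ∀ R : ℝ, Summable fun i => ‖B i‖ * Real.exp (2 * π * |r i| * R)) (R : ℝ) :
    Summable fun i => ‖B i * (2 * π * Complex.I * (r i : ℂ))‖ * Real.exp (2 * π * |r i| * R) := by
  refine Summable.of_nonneg_of_le (fun i => by positivity) (fun i => ?_) (hs (R + 1))
  rw [norm_mul, mul_assoc]
  refine mul_le_mul_of_nonneg_left ?_ (norm_nonneg _)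
  have h1 : ‖(2 * π * Complex.I * (r i : ℂ) : ℂ)‖ = 2 * π * |r i| := by
    simp [abs_of_pos Real.pi_pos]
  rw [h1]
  have h2 : 2 * π * |r i| ≤ Real.exp (2 * π * |r i|) := by
    have := Real.add_one_le_exp (2 * π * |r i|)
    linarith
  calc 2 * π * |r i| * Real.exp (2 * π * |r i| * R)
      ≤ Real.exp (2 * π * |r i|) * Real.exp (2 * π * |r i| * R) :=
        mul_le_mul_of_nonneg_right h2 (Real.exp_pos _).le
    _ = Real.exp (2 * π * |r i| * (R + 1)) := by
        rw [← Real.exp_add]
        congr 1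
        ring

end B3

open B3 in
theorem series_second_deriv {ι : Type*} (A : ι → ℂ) (r : ι → ℝ) (F : ℂ → ℂ)
    (h : ∀ t : ℂ, HasSum (fun i => A i * Complex.exp (2 * π * Complex.I * (r i : ℂ) * t)) (F t)) :
    HasSum (fun i => A i * (2 * π * Complex.I * (r i : ℂ)) ^ 2) (deriv (deriv F) 0) := by
  have hs : ∀ R : ℝ, Summable fun i => ‖A i‖ * Real.exp (2 * π * |r i| * R) := by
    intro R
    have h1 := (h (R * Complex.I)).summable.norm
    have h2 := (h (-(R * Complex.I))).summable.norm
    refine Summable.of_nonneg_of_le (fun i => by positivity) (fun i => ?_) (h1.add h2)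
    rw [norm_mul, norm_mul, norm_exp_eq, norm_exp_eq, ← mul_add]
    refine mul_le_mul_of_nonneg_left ?_ (norm_nonneg _)
    have e1 : ((R : ℂ) * Complex.I).im = R := by simp
    have e2 : (-((R : ℂ) * Complex.I)).im = -R := by simp
    rw [e1, e2]
    rcases abs_cases (r i) with ⟨h3, _⟩ | ⟨h3, _⟩
    · rw [h3]
      have : 2 * π * r i * R = -(2 * π * r i * -R) := by ring
      rw [← this]
      linarith [Real.exp_pos (-(2 * π * r i * R))]
    · rw [h3]
      have : 2 * π * -r i * R = -(2 * π * r i * R) := by ring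
      rw [← this]
      linarith [Real.exp_pos (-(2 * π * r i * -R))]
  have hF : F = fun w => ∑' i, A i * Complex.exp (2 * π * Complex.I * (r i : ℂ) * w) := by
    funext w
    exact (h w).tsum_eq.symm
  have hF' : deriv F = fun w => ∑' i, A i * (2 * π * Complex.I * (r i : ℂ)) *
      Complex.exp (2 * π * Complex.I * (r i : ℂ) * w) := by
    funext w
    rw [hF]
    exact (der A r hs w).tsum_eq.symm
  rw [hF']
  have h3 := der (fun i => A i * (2 * π * Complex.I * (r i : ℂ))) r (sum_der A r hs) 0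
  have e : (fun i => A i * (2 * π * Complex.I * (r i : ℂ)) ^ 2) =
      fun i => A i * (2 * π * Complex.I * (r i : ℂ)) * (2 * π * Complex.I * (r i : ℂ)) *
        Complex.exp (2 * π * Complex.I * (r i : ℂ) * 0) := by
    funext i
    rw [mul_zero, Complex.exp_zero]
    ring
  rw [e]
  exact h3

end Pool.Agent.Q110.Jac
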