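import Mathlib
import Pool.Agent.Q110.Jac.Defs

open UpperHalfPlane ModularForm MatrixGroups Filter Topology
open scoped Real

namespace Pool.Agent.Q110.Jac

theorem norm_qterm (a : ℂ) (n : ℕ) (τ : ℍ) :
    ‖a * Complex.exp (2 * π * Complex.I * (n : ℂ) * τ)‖ =
      ‖a‖ * Real.exp (-(2 * π * n * τ.im)) := by
  rw [norm_mul, Complex.norm_exp]
  congr 2
  have e : (2 * π * Complex.I * (n : ℂ) * (τ : ℂ)) = ((2 * π * n : ℝ) : ℂ) * (Complex.I * τ) := by
    push_cast; ring
  rw [e, Complex.re_ofReal_mul]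
  simp

theorem qseries_bounded (c : ℕ → ℂ) (g : ℍ → ℂ)
    (h : ∀ τ : ℍ, HasSum (fun n : ℕ => c n * Complex.exp (2 * π * Complex.I * (n : ℂ) * τ)) (g τ)) :
    IsBoundedAtImInfty g ∧ Tendsto g atImInfty (𝓝 (c 0)) := by
  have him : Tendsto (fun τ : ℍ => τ.im) atImInfty atTop := tendsto_comap
  have hT : Tendsto g atImInfty (𝓝 (c 0)) := by
    have hg : g = fun τ : ℍ => ∑' n : ℕ, c n * Complex.exp (2 * π * Complex.I * (n : ℂ) * τ) := by
      funext τ; exact (h τ).tsum_eq.symm
    have hlim : c 0 = ∑' n : ℕ, (if n = 0 then c 0 else 0) := by rw [tsum_ite_eq]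
    rw [hg, hlim]
    refine tendsto_tsum_of_dominated_convergence
      (bound := fun n : ℕ => ‖c n * Complex.exp (2 * π * Complex.I * (n : ℂ) * (UpperHalfPlane.I : ℍ))‖)
      (h UpperHalfPlane.I).summable.norm ?_ ?_
    · intro n
      split_ifs with hn
      · subst hn
        simp
      · rw [tendsto_zero_iff_norm_tendsto_zero]
        simp only [norm_qterm]
        have hn' : (0 : ℝ) < n := by exact_mod_cast Nat.pos_of_ne_zero hn
        have h1 : Tendsto (fun τ : ℍ => 2 * π * n * τ.im) atImInfty atTop :=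
          him.const_mul_atTop (by positivity)
        have h2 := (Real.tendsto_exp_neg_atTop_nhds_zero.comp h1).const_mul ‖c n‖
        simpa using h2
    · filter_upwards [him.eventually (eventually_ge_atTop 1)] with τ hτ n
      rw [norm_qterm, norm_qterm]
      refine mul_le_mul_of_nonneg_left (Real.exp_le_exp.2 ?_) (norm_nonneg _)
      have hI : (UpperHalfPlane.I : ℍ).im = 1 := by simp
      rw [hI]
      have : 0 ≤ 2 * π * (n : ℝ) := by positivity
      nlinarith
  exact ⟨hT.isBigO_one ℝ, hT⟩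

end Pool.Agent.Q110.Jac
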