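import Mathlib
import Pool.Agent.Q110.Jac.Defs

set_option autoImplicit false

open UpperHalfPlane ModularForm MatrixGroups Filter Topology
open scoped Real

namespace Pool.Agent.Q110.Jac

private theorem slash_zero_inv (g : ℍ → ℂ)
    (hm : ∀ (γ : SL(2, ℤ)) (τ : ℍ), g (γ • τ) = g τ) (γ : SL(2, ℤ)) :
    g ∣[(0 : ℤ)] γ = g := by
  funext τ
  rw [ModularForm.SL_slash_apply, hm, neg_zero, zpow_zero, mul_one]

theorem wt_zero_const (g : ℍ → ℂ)
    (hd : DifferentiableOn ℂ (fun w : ℂ => g (UpperHalfPlane.ofComplex w)) {w | 0 < w.im})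
    (hm : ∀ (γ : SL(2, ℤ)) (τ : ℍ), g (γ • τ) = g τ) (hb : IsBoundedAtImInfty g) :
    ∃ c : ℂ, ∀ τ, g τ = c := by
  let G : ModularForm 𝒮ℒ 0 :=
    { toFun := g
      slash_action_eq' := by
        rintro _ ⟨γ, rfl⟩
        exact slash_zero_inv g hm γ
      holo' := by
        rw [UpperHalfPlane.mdifferentiable_iff]
        exact hd
      bdd_at_cusps' := by
        intro c hc
        rw [OnePoint.isBoundedAt_iff_forall_SL2Z hc]
        intro γ _
        rw [slash_zero_inv g hm γ]
        exact hb }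
  obtain ⟨c, hc⟩ := ModularFormClass.levelOne_weight_zero_const G
  refine ⟨c, fun τ => ?_⟩
  have := congrFun hc τ
  exact this

end Pool.Agent.Q110.Jac
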