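import Mathlib
import Pool.Agent.Q110.Jac.Defs

/-!
# Level one modular forms of weight two vanish
-/

set_option autoImplicit false

open UpperHalfPlane ModularForm MatrixGroups Filter Topology
open scoped Real

namespace Pool.Agent.Q110.Jac

theorem wt_two_zero (g : ℍ → ℂ)
    (hd : DifferentiableOn ℂ (fun w : ℂ => g (UpperHalfPlane.ofComplex w)) {w | 0 < w.im})
    (hm : ∀ (γ : SL(2, ℤ)) (τ : ℍ), g (γ • τ) = (denom γ τ) ^ 2 * g τ)
    (hb : IsBoundedAtImInfty g) : ∀ τ, g τ = 0 := by
  have hs : ∀ γ : SL(2, ℤ), g ∣[(2 : ℤ)] γ = g := by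
    intro γ
    funext τ
    rw [SL_slash_apply, hm]
    have h0 : denom γ τ ≠ 0 := denom_ne_zero γ τ
    rw [zpow_neg, mul_comm, ← mul_assoc]
    have : (denom γ τ ^ (2 : ℤ))⁻¹ * denom γ τ ^ 2 = 1 := by
      rw [← zpow_natCast]
      exact inv_mul_cancel₀ (zpow_ne_zero _ h0)
    rw [this, one_mul]
  let f : ModularForm 𝒮ℒ 2 :=
    { toFun := g
      slash_action_eq' := by
        rintro A ⟨A, rfl⟩
        exact hs A
      holo' := by
        rw [UpperHalfPlane.mdifferentiable_iff]
        exact hd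
      bdd_at_cusps' := by
        intro c hc
        rw [OnePoint.isBoundedAt_iff_forall_SL2Z hc]
        intro γ _
        rw [hs]
        exact hb }
  have hf : f = 0 := rank_zero_iff_forall_zero.1 ModularForm.levelOne_weight_two_rank_zero f
  intro τ
  have := congrArg (fun F : ModularForm 𝒮ℒ 2 => F τ) hf
  exact this

end Pool.Agent.Q110.Jac
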