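import Mathlib
import Pool.Agent.Q110.Jac.Defs

set_option autoImplicit false

open UpperHalfPlane ModularForm MatrixGroups Filter Topology
open scoped Real

namespace Pool.Agent.Q110.Jac

theorem E2_tendsto_one : Tendsto EisensteinSeries.E2 atImInfty (𝓝 1) := by
  have hq : Tendsto (fun τ : ℍ => Function.Periodic.qParam 1 (τ : ℂ)) atImInfty (𝓝 0) :=
    qParam_tendsto_atImInfty one_pos
  have hq0 : ∀ τ : ℍ, Function.Periodic.qParam 1 (τ : ℂ) ≠ 0 := fun τ =>
    Function.Periodic.qParam_ne_zero _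
  set c : ℕ → ℂ := fun m => if m = 0 then 1 else -24 * (ArithmeticFunction.sigma 1 m : ℂ) with hc
  have hE : ∀ τ : ℍ, HasSum (fun m : ℕ => c m • Function.Periodic.qParam 1 (τ : ℂ) ^ m)
      (EisensteinSeries.E2 τ) := fun τ => by
    simpa only [Function.Periodic.qParam, Complex.ofReal_one, div_one] using
      EisensteinSeries.hasSum_qExpansion_E2 (z := τ)
  have hh : ∀ τ : ℍ, HasSum (fun m : ℕ => c (m + 1) • Function.Periodic.qParam 1 (τ : ℂ) ^ m)
      ((EisensteinSeries.E2 τ - 1) / Function.Periodic.qParam 1 (τ : ℂ)) := by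
    intro τ
    have h1 := (hasSum_nat_add_iff' 1).2 (hE τ)
    have h2 : (∑ i ∈ Finset.range 1, c i • Function.Periodic.qParam 1 (τ : ℂ) ^ i) = 1 := by
      simp [hc]
    rw [h2] at h1
    have h3 := h1.div_const (Function.Periodic.qParam 1 (τ : ℂ))
    refine h3.congr_fun ?_ |> fun h => h
    intro m
    have := hq0 τ
    simp only [smul_eq_mul]
    field_simp
    ring
  have hb := isBoundedAtImInfty_of_hasSum_qExpansion one_pos hh
  have h4 : Tendsto (fun τ : ℍ => Function.Periodic.qParam 1 (τ : ℂ) *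
      ((EisensteinSeries.E2 τ - 1) / Function.Periodic.qParam 1 (τ : ℂ))) atImInfty (𝓝 0) := by
    have h5 : (fun τ : ℍ => Function.Periodic.qParam 1 (τ : ℂ)) =o[atImInfty]
        (1 : ℍ → ℝ) := (Asymptotics.isLittleO_one_iff ℝ).2 hq
    have h6 := h5.mul_isBigO hb
    have h7 : ((1 : ℍ → ℝ) * 1) = fun _ => (1 : ℝ) := by funext; simp
    exact (Asymptotics.isLittleO_one_iff ℝ).1 (by simpa using h6)
  have h8 : (fun τ : ℍ => Function.Periodic.qParam 1 (τ : ℂ) *
      ((EisensteinSeries.E2 τ - 1) / Function.Periodic.qParam 1 (τ : ℂ)) + 1) =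
      EisensteinSeries.E2 := by
    funext τ
    rw [mul_div_cancel₀ _ (hq0 τ)]
    ring
  have h9 := h4.add_const 1
  rw [h8, zero_add] at h9
  exact h9

theorem E2_facts : ∃ E : ℍ → ℂ,
    DifferentiableOn ℂ (fun w : ℂ => E (UpperHalfPlane.ofComplex w)) {w | 0 < w.im} ∧
    (∀ (γ : SL(2, ℤ)) (τ : ℍ), E (γ • τ) = (denom γ τ) ^ 2 * E τ +
      6 / (π * Complex.I) * ((γ 1 0 : ℤ) : ℂ) * denom γ τ) ∧
    IsBoundedAtImInfty E ∧ Tendsto E atImInfty (𝓝 1) := by
  refine ⟨EisensteinSeries.E2, UpperHalfPlane.mdifferentiable_iff.1 E2_mdifferentiable, ?_,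
    EisensteinSeries.isBoundedAtImInfty_E2, E2_tendsto_one⟩
  intro γ τ
  have h := congrFun (EisensteinSeries.E2_slash_action γ) τ
  rw [ModularForm.SL_slash_apply] at h
  simp only [Pi.sub_apply, Pi.smul_apply, smul_eq_mul, EisensteinSeries.D2, riemannZeta_two] at h
  have hd : denom γ τ ≠ 0 := denom_ne_zero _ _
  have hpi : (π : ℂ) ≠ 0 := by exact_mod_cast Real.pi_ne_zero
  have hI : Complex.I ≠ 0 := Complex.I_ne_zero
  have h2 : EisensteinSeries.E2 (γ • τ) = (EisensteinSeries.E2 (γ • τ) * denom γ τ ^ (-2 : ℤ)) *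
      denom γ τ ^ 2 := by
    rw [mul_assoc, zpow_neg]
    norm_cast
    rw [inv_mul_cancel₀ (pow_ne_zero _ hd), mul_one]
  rw [h2, h]
  field_simp
  ring_nf
  rw [Complex.I_sq]
  ring

end Pool.Agent.Q110.Jac
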