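import Mathlib
import Pool.Agent.Q110.Jac.B1
import Pool.Agent.Q110.Jac.B2
import Pool.Agent.Q110.Jac.A1

set_option autoImplicit false

open UpperHalfPlane ModularForm MatrixGroups Filter Topology
open scoped Real

namespace Pool.Agent.Q110.Jac

variable {n : ℕ}

theorem hs_congr {β : Type*} {f g : β → ℂ} {a : ℂ} (h : HasSum f a) (e : ∀ b, f b = g b) :
    HasSum g a := (funext e : f = g) ▸ h

/-- `q^m` -/
noncomputable def qq (m : ℕ) (τ : ℍ) : ℂ := Complex.exp (2 * π * Complex.I * (m : ℂ) * τ)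

theorem qq_ne (m : ℕ) (τ : ℍ) : qq m τ ≠ 0 := Complex.exp_ne_zero _

theorem bil_add_left (x y z : Fin n → ℝ) : bil (x + y) z = bil x z + bil y z := by
  simp [bil, add_mul, Finset.sum_add_distrib]

theorem bil_sub_left (x y z : Fin n → ℝ) : bil (x - y) z = bil x z - bil y z := by
  simp [bil, sub_mul, Finset.sum_sub_distrib]

theorem bil_comm (x y : Fin n → ℝ) : bil x y = bil y x := by
  unfold bil; exact Finset.sum_congr rfl fun i _ => mul_comm _ _

theorem bil_add_right (x y z : Fin n → ℝ) : bil x (y + z) = bil x y + bil x z := by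
  rw [bil_comm, bil_add_left, bil_comm y, bil_comm z]

/-- `(ℓ, x + a τ)` -/
theorem bilC_line (l x a : Fin n → ℝ) (t : ℂ) :
    bilC (toC l) (fun i => (x i : ℂ) + (a i : ℂ) * t) = (bil l x : ℂ) + (bil l a : ℂ) * t := by
  unfold bilC bil toC
  push_cast
  rw [Finset.sum_mul, ← Finset.sum_add_distrib]
  exact Finset.sum_congr rfl fun i _ => by ring

theorem bilC_toC (l x : Fin n → ℝ) : bilC (toC l) (toC x) = (bil l x : ℂ) := by
  unfold bilC bil toC
  push_cast
  rfl

theorem mem_dual_of_mem {L : AddSubgroup (Fin n → ℝ)} (hL : IsEvenLattice L) {a : Fin n → ℝ}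
    (ha : a ∈ L) : a ∈ dual L := fun x hx => hL.int x hx a ha

/-- grouping of the Fourier series by `n` -/
theorem group_n {D : Type*} (f : ℕ → D → ℂ) (w : D → ℂ) (G : ℍ → ℂ)
    (h : ∀ τ : ℍ, HasSum (fun p : ℕ × D => f p.1 p.2 * qq p.1 τ * w p.2) (G τ)) :
    (∀ m, Summable (fun l => f m l * w l)) ∧
      ∀ τ : ℍ, HasSum (fun m : ℕ => (∑' l, f m l * w l) * qq m τ) (G τ) := by
  have h1 : ∀ m, Summable (fun l => f m l * w l) := by
    intro m
    have h2 := (h UpperHalfPlane.I).summable.prod_factor m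
    have h3 := h2.mul_left (qq m UpperHalfPlane.I)⁻¹
    refine h3.congr fun l => ?_
    have := qq_ne m UpperHalfPlane.I
    field_simp
  refine ⟨h1, fun τ => ?_⟩
  refine (h τ).prod_fiberwise fun m => ?_
  have h2 : (fun l => f m l * qq m τ * w l) = fun l => (f m l * w l) * qq m τ := by
    funext l; ring
  show HasSum (fun l => f m l * qq m τ * w l) _
  rw [h2]
  exact (h1 m).hasSum.mul_right (qq m τ)

/-- uniqueness of `q`-expansions -/
theorem q_unique (c d : ℕ → ℂ) (G : ℍ → ℂ)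
    (hc : ∀ τ : ℍ, HasSum (fun m : ℕ => c m * qq m τ) (G τ))
    (hd : ∀ τ : ℍ, HasSum (fun m : ℕ => d m * qq m τ) (G τ)) (m : ℕ) : c m = d m := by
  refine (qseries_shift c d 0 (fun τ => (hc τ).summable) (fun τ => (hd τ).summable)
    (fun τ => ?_)).1 m m (by simp)
  have h1 := (hc τ).tsum_eq
  have h2 := (hd τ).tsum_eq
  unfold qq at h1 h2
  rw [h1, h2]
  simp

section coef

variable {L : AddSubgroup (Fin n → ℝ)} (hL : IsEvenLattice L) {φ : ℍ → (Fin n → ℂ) → ℂ} {k : ℤ}
  (hφ : WeakJacobi k L φ) {f : ℕ → dual L → ℂ}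
  (hf : ∀ (τ : ℍ) (z : Fin n → ℂ),
    HasSum (fun p : ℕ × dual L => f p.1 p.2 * Complex.exp (2 * π * Complex.I * (p.1 : ℂ) * τ) *
      Complex.exp (2 * π * Complex.I * bilC (toC (p.2 : Fin n → ℝ)) z)) (φ τ z))
include hL hφ hf

omit hL hφ in
theorem group_l_aux (τ : ℍ) (z : Fin n → ℂ) : HasSum (fun l : dual L => (∑' m : ℕ, f m l * qq m τ) *
      Complex.exp (2 * π * Complex.I * bilC (toC (l : Fin n → ℝ)) z)) (φ τ z) := by
  have h2 : HasSum (fun p : dual L × ℕ => f p.2 p.1 * qq p.2 τ *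
      Complex.exp (2 * π * Complex.I * bilC (toC (p.1 : Fin n → ℝ)) z)) (φ τ z) := by
    have h1 := (hf τ z)
    have h1' := (Equiv.hasSum_iff (Equiv.prodComm (dual L) ℕ)
      (f := (fun p : ℕ × dual L => f p.1 p.2 * Complex.exp (2 * π * Complex.I * (p.1 : ℂ) * τ) *
      Complex.exp (2 * π * Complex.I * bilC (toC (p.2 : Fin n → ℝ)) z))) (a := φ τ z)).2 h1
    refine hs_congr h1' fun p => ?_
    rfl
  refine h2.prod_fiberwise fun l => ?_
  have h3 := h2.summable.prod_factor l
  have h4 : Summable (fun m : ℕ => f m l * qq m τ) := by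
    have h5 := h3.mul_right (Complex.exp (2 * π * Complex.I * bilC (toC (l : Fin n → ℝ)) z))⁻¹
    refine h5.congr fun m => ?_
    rw [mul_assoc (f m l * qq m τ), mul_inv_cancel₀ (Complex.exp_ne_zero _), mul_one]
  exact h4.hasSum.mul_right _

omit hL hφ in
theorem group_l_summable (τ : ℍ) : Summable (fun l : dual L => ∑' m : ℕ, f m l * qq m τ) := by
  have h1 := (group_l_aux hf τ 0).summable
  refine h1.congr fun l => ?_
  have : bilC (toC (l : Fin n → ℝ)) 0 = 0 := by simp [bilC]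
  rw [this, mul_zero, Complex.exp_zero, mul_one]

omit hL hφ in
theorem coef_summable (l : dual L) (τ : ℍ) : Summable (fun m : ℕ => f m l * qq m τ) := by
  have h1 := (hf τ 0)
  have h1' := (Equiv.hasSum_iff (Equiv.prodComm (dual L) ℕ)
    (f := (fun p : ℕ × dual L => f p.1 p.2 * Complex.exp (2 * π * Complex.I * (p.1 : ℂ) * τ) *
    Complex.exp (2 * π * Complex.I * bilC (toC (p.2 : Fin n → ℝ)) 0))) (a := φ τ 0)).2 h1
  have h3 := h1'.summable.prod_factor l
  refine h3.congr fun m => ?_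
  have : bilC (toC (l : Fin n → ℝ)) 0 = 0 := by simp [bilC]
  show f m l * Complex.exp (2 * π * Complex.I * (m : ℂ) * τ) *
    Complex.exp (2 * π * Complex.I * bilC (toC (l : Fin n → ℝ)) 0) = _
  rw [this, mul_zero, Complex.exp_zero, mul_one]
  rfl

/-- the basic relation between the coefficients -/
theorem coef_rel (a : Fin n → ℝ) (ha : a ∈ L) (l l' : dual L)
    (hl : (l' : Fin n → ℝ) = (l : Fin n → ℝ) + a) (τ : ℍ) :
    ∑' m : ℕ, f m l' * qq m τ = Complex.exp (2 * π * Complex.I * ((bil (l : Fin n → ℝ) a +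
      bil a a / 2 : ℝ) : ℂ) * τ) * ∑' m : ℕ, f m l * qq m τ := by
  classical
  set A : dual L → ℂ := fun l => ∑' m : ℕ, f m l * qq m τ with hA
  let ad : dual L := ⟨a, mem_dual_of_mem hL ha⟩
  let B : dual L → ℂ := fun l => A (l - ad) * Complex.exp (2 * π * Complex.I *
    ((bil ((l - ad : dual L) : Fin n → ℝ) a + bil a a / 2 : ℝ) : ℂ) * τ)
  have hAs := group_l_summable hf τ
  -- the second series
  have hB : ∀ x : Fin n → ℝ, HasSum (fun l : dual L => B l *
      Complex.exp (2 * π * Complex.I * (bil (l : Fin n → ℝ) x : ℂ))) (φ τ (toC x)) := by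
    intro x
    have h1 := group_l_aux hf τ (fun i => (x i : ℂ) + (a i : ℂ) * τ)
    have h2 := hφ.elliptic τ (toC x) a ha 0 L.zero_mem
    have h3 : (fun i => toC x i + (a i : ℂ) * τ + (((0 : Fin n → ℝ) i : ℝ) : ℂ)) =
        (fun i => (x i : ℂ) + (a i : ℂ) * τ) := by
      funext i; simp [toC]
    rw [h3, bilC_toC] at h2
    rw [h2] at h1
    have h4 := h1.mul_left (Complex.exp (-π * Complex.I * (bil a a : ℂ) * τ -
      2 * π * Complex.I * (bil a x : ℂ)))⁻¹
    rw [inv_mul_cancel_left₀ (Complex.exp_ne_zero _)] at h4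
    have h5 := (Equiv.hasSum_iff (Equiv.subRight ad)).2 h4
    refine hs_congr h5 fun l' => ?_
    show (Complex.exp (-π * Complex.I * (bil a a : ℂ) * τ -
      2 * π * Complex.I * (bil a x : ℂ)))⁻¹ * (A (l' - ad) * Complex.exp (2 * π * Complex.I *
        bilC (toC ((l' - ad : dual L) : Fin n → ℝ)) (fun i => (x i : ℂ) + (a i : ℂ) * τ))) =
      A (l' - ad) * Complex.exp (2 * π * Complex.I *
    ((bil ((l' - ad : dual L) : Fin n → ℝ) a + bil a a / 2 : ℝ) : ℂ) * τ) *
      Complex.exp (2 * π * Complex.I * (bil (l' : Fin n → ℝ) x : ℂ))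
    rw [bilC_line, ← Complex.exp_neg]
    have e1 : (bil ((l' - ad : dual L) : Fin n → ℝ) x : ℝ) = bil (l' : Fin n → ℝ) x - bil a x :=
      bil_sub_left _ _ _
    rw [e1]
    have e2 : ∀ X Y Z W V : ℂ, Complex.exp X * (Y * Complex.exp Z) =
        Y * Complex.exp W * Complex.exp V ↔ Y * Complex.exp (X + Z) = Y * Complex.exp (W + V) := by
      intro X Y Z W V
      rw [Complex.exp_add, Complex.exp_add]
      constructor <;> intro h <;> linear_combination h
    rw [e2]
    congr 2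
    push_cast
    ring
  have hAsum : ∀ x : Fin n → ℝ, HasSum (fun l : dual L => A l *
      Complex.exp (2 * π * Complex.I * (bil (l : Fin n → ℝ) x : ℂ))) (φ τ (toC x)) := by
    intro x
    have h1 := group_l_aux hf τ (toC x)
    refine hs_congr h1 fun l' => ?_
    rw [bilC_toC]
  have hBs : Summable B := by
    have h1 := (hB 0).summable
    refine h1.congr fun l => ?_
    have : bil (l : Fin n → ℝ) 0 = 0 := by simp [bil]
    rw [this]
    simp
  have hz := char_unique (dual L) (fun l => A l - B l) (hAs.sub hBs) (fun x => by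
    have h1 := (hAsum x).sub (hB x)
    rw [sub_self] at h1
    rw [← h1.tsum_eq]
    refine tsum_congr fun l => ?_
    ring) l'
  have hz' : A l' = B l' := sub_eq_zero.1 hz
  have hl2 : l' - ad = l := by
    apply Subtype.ext
    show (l' : Fin n → ℝ) - a = l
    rw [hl]; abel
  have hz2 : B l' = A l * Complex.exp (2 * π * Complex.I *
    ((bil (l : Fin n → ℝ) a + bil a a / 2 : ℝ) : ℂ) * τ) := by
    show A (l' - ad) * Complex.exp (2 * π * Complex.I *
      ((bil ((l' - ad : dual L) : Fin n → ℝ) a + bil a a / 2 : ℝ) : ℂ) * τ) = _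
    rw [hl2]
  rw [hz2, mul_comm] at hz'
  exact hz'

/-- relation between single coefficients -/
theorem coef_rel' (a : Fin n → ℝ) (ha : a ∈ L) (l l' : dual L)
    (hl : (l' : Fin n → ℝ) = (l : Fin n → ℝ) + a) :
    (∀ m m' : ℕ, (m : ℝ) = m' + (bil (l : Fin n → ℝ) a + bil a a / 2) → f m l' = f m' l) ∧
      ∀ m : ℕ, (m : ℝ) + (bil (l : Fin n → ℝ) a + bil a a / 2) < 0 → f m l = 0 := by
  obtain ⟨k1, hk1⟩ := l.2 a ha
  obtain ⟨k2, hk2⟩ := hL.even a ha
  have hs : bil (l : Fin n → ℝ) a + bil a a / 2 = ((k1 + k2 : ℤ) : ℝ) := by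
    rw [bil_comm, hk1, hk2]; push_cast; ring
  have h := qseries_shift (fun m => f m l') (fun m => f m l) (k1 + k2)
    (fun τ => coef_summable hf l' τ) (fun τ => coef_summable hf l τ) (fun τ => by
      have h1 := coef_rel hL hφ hf a ha l l' hl τ
      rw [hs] at h1
      unfold qq at h1
      rw [h1]
      push_cast
      rfl)
  refine ⟨fun m m' hm => h.1 m m' ?_, fun m hm => h.2 m ?_⟩
  · rw [hs] at hm
    exact_mod_cast hm
  · rw [hs] at hm
    exact_mod_cast hm

end coef

end Pool.Agent.Q110.Jac
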