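import Mathlib
import Pool.Agent.Q110.Jac.Defs

set_option autoImplicit false

open UpperHalfPlane Complex ModularForm MatrixGroups Filter Topology
open scoped Real

namespace Pool.Agent.Q110.Jac

variable {n : ℕ}

theorem no_basis (L : AddSubgroup (Fin n → ℝ))
    (h0 : ∀ φ : ℍ → (Fin n → ℂ) → ℂ, WeakJacobi 0 L φ → ∀ τ z, φ τ z = 0) :
    ¬ ∃ (r : ℕ) (k : Fin r → ℤ) (B : Fin r → ℍ → (Fin n → ℂ) → ℂ),
      (∀ i, WeakJacobi (k i) L (B i)) ∧ (∀ i, k i ≤ 0) ∧ (∃! i, k i = 0) ∧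
      ∀ (m : ℤ) (φ : ℍ → (Fin n → ℂ) → ℂ), WeakJacobi m L φ →
        ∃! g : (i : Fin r) → ModularForm 𝒮ℒ (m - k i), ∀ τ z, φ τ z = ∑ i, g i τ * B i τ z := by
  classical
  rintro ⟨r, k, B, hB, -, ⟨i₀, hi₀, -⟩, hg⟩
  have hBz : ∀ τ z, B i₀ τ z = 0 := h0 (B i₀) (by have := hB i₀; rwa [hi₀] at this)
  obtain ⟨g, -, hu⟩ := hg 0 (B i₀) (by have := hB i₀; rwa [hi₀] at this)
  have hw : (0 : ℤ) = 0 - k i₀ := by rw [hi₀]; rfl
  let g₂ : (i : Fin r) → ModularForm 𝒮ℒ (0 - k i) :=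
    Function.update (fun i => (0 : ModularForm 𝒮ℒ (0 - k i))) i₀
      (ModularForm.mcast hw (ModularForm.const 1) rfl)
  have h1 : (fun i => (0 : ModularForm 𝒮ℒ (0 - k i))) = g := by
    refine hu _ fun τ z => ?_
    rw [hBz]
    symm
    refine Finset.sum_eq_zero fun i _ => ?_
    show (0 : ModularForm 𝒮ℒ (0 - k i)) τ * B i τ z = 0
    rw [ModularForm.zero_apply, zero_mul]
  have h2 : g₂ = g := by
    refine hu _ fun τ z => ?_
    rw [hBz]
    symm
    refine Finset.sum_eq_zero fun i _ => ?_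
    by_cases hi : i = i₀
    · subst hi
      rw [hBz, mul_zero]
    · show (Function.update (fun i => (0 : ModularForm 𝒮ℒ (0 - k i))) i₀
        (ModularForm.mcast hw (ModularForm.const 1) rfl) i) τ * B i τ z = 0
      rw [Function.update_of_ne hi, ModularForm.zero_apply, zero_mul]
  have h3 : g₂ i₀ = (0 : ModularForm 𝒮ℒ (0 - k i₀)) := by
    rw [h2, ← h1]
  have h4 : g₂ i₀ = ModularForm.mcast hw (ModularForm.const 1) rfl := by
    simp only [g₂, Function.update_self]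
  have h5 : (ModularForm.mcast hw (ModularForm.const 1 : ModularForm 𝒮ℒ 0) rfl) UpperHalfPlane.I = (0 : ℂ) := by
    rw [← h4, h3, ModularForm.zero_apply]
  rw [ModularForm.mcast_apply, ModularForm.const_apply] at h5
  exact one_ne_zero h5

end Pool.Agent.Q110.Jac
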