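import Mathlib
import Pool.Agent.Q110.Jac.Defs

set_option autoImplicit false

open UpperHalfPlane Complex ModularForm MatrixGroups Filter Topology
open scoped Real

namespace Pool.Agent.Q110.Jac

variable {n : ℕ}

theorem deriv2_transform (F : ℂ → ℂ) (hF : Differentiable ℂ F) (c d : ℂ) :
    deriv (deriv (fun s : ℂ => Complex.exp (π * Complex.I * c * d * s ^ 2) * F (d * s))) 0 =
      d ^ 2 * deriv (deriv F) 0 + 2 * π * Complex.I * c * d * F 0 := by
  have hF' : Differentiable ℂ (deriv F) := (hF.contDiff (n := 2)).differentiable_deriv_two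
  have h1 : ∀ s : ℂ, HasDerivAt (fun s : ℂ => Complex.exp (π * Complex.I * c * d * s ^ 2) * F (d * s))
      (Complex.exp (π * Complex.I * c * d * s ^ 2) * (π * Complex.I * c * d * (2 * s)) * F (d * s) +
        Complex.exp (π * Complex.I * c * d * s ^ 2) * (deriv F (d * s) * d)) s := by
    intro s
    have e1 : HasDerivAt (fun s : ℂ => π * Complex.I * c * d * s ^ 2)
        (π * Complex.I * c * d * (2 * s)) s := by
      have := (hasDerivAt_pow 2 s).const_mul (π * Complex.I * c * d)
      simpa using this
    have e2 : HasDerivAt (fun s : ℂ => F (d * s)) (deriv F (d * s) * d) s := by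
      have h3 : HasDerivAt (fun s : ℂ => d * s) d s := by
        simpa using (hasDerivAt_id s).const_mul d
      exact (hF (d * s)).hasDerivAt.comp s h3
    exact e1.cexp.mul e2
  have h2 : deriv (fun s : ℂ => Complex.exp (π * Complex.I * c * d * s ^ 2) * F (d * s)) =
      fun s => Complex.exp (π * Complex.I * c * d * s ^ 2) *
        ((π * Complex.I * c * d * (2 * s)) * F (d * s) + deriv F (d * s) * d) := by
    funext s
    rw [(h1 s).deriv]
    ring
  rw [h2]
  have h4 : HasDerivAt (fun s : ℂ => Complex.exp (π * Complex.I * c * d * s ^ 2) *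
        ((π * Complex.I * c * d * (2 * s)) * F (d * s) + deriv F (d * s) * d))
      (d ^ 2 * deriv (deriv F) 0 + 2 * π * Complex.I * c * d * F 0) 0 := by
    have e1 : HasDerivAt (fun s : ℂ => π * Complex.I * c * d * s ^ 2)
        (π * Complex.I * c * d * (2 * 0)) (0 : ℂ) := by
      have := (hasDerivAt_pow 2 (0 : ℂ)).const_mul (π * Complex.I * c * d)
      simpa using this
    have h3 : HasDerivAt (fun s : ℂ => d * s) d 0 := by
      simpa using (hasDerivAt_id (0 : ℂ)).const_mul d
    have e2 : HasDerivAt (fun s : ℂ => F (d * s)) (deriv F (d * 0) * d) 0 :=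
      (hF (d * 0)).hasDerivAt.comp 0 h3
    have e3 : HasDerivAt (fun s : ℂ => deriv F (d * s)) (deriv (deriv F) (d * 0) * d) 0 :=
      (hF' (d * 0)).hasDerivAt.comp 0 h3
    have e4 : HasDerivAt (fun s : ℂ => π * Complex.I * c * d * (2 * s))
        (π * Complex.I * c * d * 2) (0 : ℂ) := by
      have := ((hasDerivAt_id (0 : ℂ)).const_mul (2 : ℂ)).const_mul (π * Complex.I * c * d)
      simpa using this
    have := e1.cexp.mul ((e4.mul e2).add (e3.mul_const d))
    refine this.congr_deriv ?_
    simp
    ring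
  exact h4.deriv

private theorem slice_diff (L : AddSubgroup (Fin n → ℝ)) (φ : ℍ → (Fin n → ℂ) → ℂ) (k : ℤ)
    (hφ : WeakJacobi k L φ) (j : Fin n) (τ : ℍ) :
    Differentiable ℂ (fun t : ℂ => φ τ (Pi.single j t)) := by
  have h1 : Differentiable ℂ (fun t : ℂ => (((τ : ℂ), Pi.single j t) : ℂ × (Fin n → ℂ))) := by
    refine (differentiable_const _).prodMk ?_
    rw [differentiable_pi]
    intro i
    by_cases h : i = j
    · subst h
      simp only [Pi.single_eq_same]
      exact differentiable_id
    · simp only [Pi.single_eq_of_ne h]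
      exact differentiable_const _
  intro t
  have ho : IsOpen {p : ℂ × (Fin n → ℂ) | 0 < p.1.im} :=
    isOpen_lt continuous_const (Complex.continuous_im.comp continuous_fst)
  have h2 := (hφ.hol ((τ : ℂ), Pi.single j t) τ.im_pos).differentiableAt (ho.mem_nhds τ.im_pos)
  have h3 := h2.comp t (h1 t)
  refine h3.congr_of_eventuallyEq (Filter.Eventually.of_forall fun s => ?_)
  simp only [Function.comp_apply, UpperHalfPlane.ofComplex_apply]

theorem moment_law (L : AddSubgroup (Fin n → ℝ)) (φ : ℍ → (Fin n → ℂ) → ℂ) (hφ : WeakJacobi 0 L φ)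
    (j : Fin n) (γ : SL(2, ℤ)) (τ : ℍ) :
    deriv (deriv (fun t : ℂ => φ (γ • τ) (Pi.single j t))) 0 =
      (denom γ τ) ^ 2 * deriv (deriv (fun t : ℂ => φ τ (Pi.single j t))) 0 +
        2 * π * Complex.I * ((γ 1 0 : ℤ) : ℂ) * denom γ τ * φ τ 0 := by
  have hd : denom γ τ ≠ 0 := denom_ne_zero _ _
  have h1 : (fun t : ℂ => φ (γ • τ) (Pi.single j t)) =
      fun t : ℂ => Complex.exp (π * Complex.I * ((γ 1 0 : ℤ) : ℂ) * denom γ τ * t ^ 2) *
        (fun t : ℂ => φ τ (Pi.single j t)) (denom γ τ * t) := by
    funext t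
    have h2 := hφ.modular γ τ (Pi.single j (denom γ τ * t))
    have h3 : (fun i => (Pi.single j (denom γ τ * t) : Fin n → ℂ) i / denom γ τ) = Pi.single j t := by
      funext i
      by_cases h : i = j
      · subst h
        simp only [Pi.single_eq_same]
        field_simp
      · simp only [Pi.single_eq_of_ne h, zero_div]
    have h4 : bilC (Pi.single j (denom γ τ * t) : Fin n → ℂ) (Pi.single j (denom γ τ * t)) =
        (denom γ τ * t) ^ 2 := by
      unfold bilC
      rw [Finset.sum_eq_single j]
      · simp only [Pi.single_eq_same]; ring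
      · intro i _ h
        simp only [Pi.single_eq_of_ne h, zero_mul]
      · intro h; exact absurd (Finset.mem_univ j) h
    rw [h3, h4] at h2
    rw [h2, zpow_zero, one_mul]
    congr 2
    field_simp
  rw [h1, deriv2_transform _ (slice_diff L φ 0 hφ j τ)]
  simp only [Pi.single_zero]

end Pool.Agent.Q110.Jac
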