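import Mathlib
import Pool.Agent.Q110.Jac.Defs

/-!
# Weak Jacobi forms of index one for the lattice `L15`: the moments of the coefficients
-/

set_option autoImplicit false

open UpperHalfPlane Complex ModularForm MatrixGroups Filter Topology
open scoped Real

namespace Pool.Agent.Q110.Jac

theorem final_comb (F : dual L15 → ℂ) (X : ℂ)
    (hsupp : ∀ l : dual L15, F l ≠ 0 → (l : Fin 15 → ℝ) = 0 ∨ ((l : Fin 15 → ℝ) ∉ L15 ∧
      ((l : Fin 15 → ℝ) 0) ^ 2 = 1 / 2 ∧ ∑ i : Fin 14, ((l : Fin 15 → ℝ) i.succ) ^ 2 = 1))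
    (hconst : ∀ l l' : dual L15, (l : Fin 15 → ℝ) ∉ L15 → (l' : Fin 15 → ℝ) ∉ L15 →
      bil (l : Fin 15 → ℝ) l = bil (l' : Fin 15 → ℝ) l' → F l = F l')
    (hX : ∀ j : Fin 15, HasSum (fun l : dual L15 => F l * ((((l : Fin 15 → ℝ) j) ^ 2 : ℝ) : ℂ)) X) :
    (∀ l : dual L15, (l : Fin 15 → ℝ) ≠ 0 → F l = 0) ∧ X = 0 := by
  have hnorm : ∀ l : dual L15, ((l : Fin 15 → ℝ) 0) ^ 2 = 1 / 2 →
      ∑ i : Fin 14, ((l : Fin 15 → ℝ) i.succ) ^ 2 = 1 →
      bil (l : Fin 15 → ℝ) l = 3 / 2 := by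
    intro l h1 h2
    have e : bil (l : Fin 15 → ℝ) l = ((l : Fin 15 → ℝ) 0) ^ 2 +
        ∑ i : Fin 14, ((l : Fin 15 → ℝ) i.succ) ^ 2 := by
      unfold bil
      rw [Fin.sum_univ_succ]
      simp only [sq]
    rw [e, h1, h2]
    norm_num
  have main : ∀ l : dual L15, (l : Fin 15 → ℝ) ≠ 0 → F l = 0 := by
    intro l₁ hl₁
    by_contra hF
    have h1 : (l₁ : Fin 15 → ℝ) ∉ L15 ∧ ((l₁ : Fin 15 → ℝ) 0) ^ 2 = 1 / 2 ∧
        ∑ i : Fin 14, ((l₁ : Fin 15 → ℝ) i.succ) ^ 2 = 1 := by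
      rcases hsupp l₁ hF with h | h
      · exact absurd h hl₁
      · exact h
    -- the combination of the moments
    have hA : HasSum (fun l : dual L15 => 14 * (F l * ((((l : Fin 15 → ℝ) 0) ^ 2 : ℝ) : ℂ)) -
        ∑ i : Fin 14, F l * ((((l : Fin 15 → ℝ) i.succ) ^ 2 : ℝ) : ℂ)) (14 * X - ∑ _i : Fin 14, X) :=
      ((hX 0).mul_left 14).sub (hasSum_sum fun i _ => hX i.succ)
    have hzero : (14 * X - ∑ _i : Fin 14, X) = 0 := by
      simp
    rw [hzero] at hA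
    have hfun : (fun l : dual L15 => 14 * (F l * ((((l : Fin 15 → ℝ) 0) ^ 2 : ℝ) : ℂ)) -
        ∑ i : Fin 14, F l * ((((l : Fin 15 → ℝ) i.succ) ^ 2 : ℝ) : ℂ)) =
        fun l : dual L15 => (6 * F l₁) *
          (((Set.indicator {l : dual L15 | F l ≠ 0 ∧ (l : Fin 15 → ℝ) ≠ 0} (fun _ => (1 : ℝ)) l : ℝ)) : ℂ) := by
      funext l
      by_cases hl : F l ≠ 0 ∧ (l : Fin 15 → ℝ) ≠ 0
      · rw [Set.indicator_of_mem (show l ∈ {l : dual L15 | F l ≠ 0 ∧ (l : Fin 15 → ℝ) ≠ 0} from hl)]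
        have h2 : (l : Fin 15 → ℝ) ∉ L15 ∧ ((l : Fin 15 → ℝ) 0) ^ 2 = 1 / 2 ∧
            ∑ i : Fin 14, ((l : Fin 15 → ℝ) i.succ) ^ 2 = 1 := by
          rcases hsupp l hl.1 with h | h
          · exact absurd h hl.2
          · exact h
        have h3 : F l = F l₁ := hconst l l₁ h2.1 h1.1
          (by rw [hnorm l h2.2.1 h2.2.2, hnorm l₁ h1.2.1 h1.2.2])
        have h4 : ∑ i : Fin 14, F l * ((((l : Fin 15 → ℝ) i.succ) ^ 2 : ℝ) : ℂ) = F l := by
          rw [← Finset.mul_sum, ← Complex.ofReal_sum, h2.2.2]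
          simp
        rw [h4, h2.2.1, h3]
        push_cast
        ring
      · rw [Set.indicator_of_notMem (show l ∉ {l : dual L15 | F l ≠ 0 ∧ (l : Fin 15 → ℝ) ≠ 0} from hl)]
        rw [not_and_or, not_not, not_not] at hl
        rcases hl with hl | hl
        · simp [hl]
        · simp [hl]
    rw [hfun] at hA
    have hc : (6 * F l₁) ≠ 0 := mul_ne_zero (by norm_num) hF
    have hB : HasSum (fun l : dual L15 =>
        (((Set.indicator {l : dual L15 | F l ≠ 0 ∧ (l : Fin 15 → ℝ) ≠ 0} (fun _ => (1 : ℝ)) l : ℝ)) : ℂ)) 0 := by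
      have h7 := hA.mul_left (6 * F l₁)⁻¹
      rw [mul_zero] at h7
      refine h7.congr_fun ?_
      intro l
      rw [← mul_assoc, inv_mul_cancel₀ hc, one_mul]
    have hC : HasSum (fun l : dual L15 =>
        (Set.indicator {l : dual L15 | F l ≠ 0 ∧ (l : Fin 15 → ℝ) ≠ 0} (fun _ => (1 : ℝ)) l : ℝ)) 0 := by
      have h8 := Complex.hasSum_re hB
      simpa only [Complex.ofReal_re, Complex.zero_re] using h8
    rw [hasSum_zero_iff_of_nonneg] at hC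
    · have h5 := congrFun hC l₁
      rw [Set.indicator_of_mem (show l₁ ∈ {l : dual L15 | F l ≠ 0 ∧ (l : Fin 15 → ℝ) ≠ 0} from
        ⟨hF, hl₁⟩)] at h5
      simp at h5
    · intro l
      exact Set.indicator_nonneg (fun _ _ => zero_le_one) l
  refine ⟨main, ?_⟩
  have h0 : (fun l : dual L15 => F l * ((((l : Fin 15 → ℝ) 0) ^ 2 : ℝ) : ℂ)) = fun _ => 0 := by
    funext l
    by_cases hl : (l : Fin 15 → ℝ) = 0
    · simp [hl]
    · simp [main l hl]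
  have h6 := hX 0
  rw [h0] at h6
  exact h6.unique hasSum_zero

end Pool.Agent.Q110.Jac
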