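import Mathlib
import Pool.Agent.Q110.Jac.Defs

open UpperHalfPlane Complex ModularForm MatrixGroups Filter Topology
open scoped Real

namespace Pool.Agent.Q110.Jac

theorem norm_qterm_D4 (a : ℂ) (m : ℕ) (w : ℂ) :
    ‖a * Complex.exp (2 * π * Complex.I * (m : ℂ) * w)‖ =
      ‖a‖ * Real.exp (-(2 * π * m * w.im)) := by
  rw [norm_mul, Complex.norm_exp]
  congr 2
  have e : (2 * π * Complex.I * (m : ℂ) * w) = ((2 * π * m : ℝ) : ℂ) * (Complex.I * w) := by
    push_cast; ring
  rw [e, Complex.re_ofReal_mul]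
  simp

theorem q_hol (c : ℕ → ℂ) (G : ℍ → ℂ)
    (hc : ∀ τ : ℍ, HasSum (fun m : ℕ => c m * Complex.exp (2 * π * Complex.I * (m : ℂ) * τ)) (G τ)) :
    DifferentiableOn ℂ (fun w : ℂ => G (UpperHalfPlane.ofComplex w)) {w | 0 < w.im} := by
  intro w0 hw0
  have hw0' : 0 < w0.im := hw0
  obtain ⟨e, he, he2⟩ : ∃ e : ℝ, 0 < e ∧ e < w0.im := ⟨w0.im / 2, by linarith, by linarith⟩
  let U : Set ℂ := {w | e < w.im}
  have hU : IsOpen U := isOpen_lt continuous_const Complex.continuous_im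
  let τe : ℍ := ⟨⟨0, e⟩, he⟩
  have hsum := (hc τe).summable.norm
  have hd : DifferentiableOn ℂ
      (fun w : ℂ => ∑' m : ℕ, c m * Complex.exp (2 * π * Complex.I * (m : ℂ) * w)) U := by
    refine differentiableOn_tsum_of_summable_norm hsum (fun m => ?_) hU ?_
    · fun_prop
    · intro m w hw
      have hw' : e < w.im := hw
      rw [norm_qterm_D4, norm_qterm_D4]
      refine mul_le_mul_of_nonneg_left (Real.exp_le_exp.2 ?_) (norm_nonneg _)
      have hI : (τe : ℂ).im = e := rfl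
      rw [hI]
      have : 0 ≤ 2 * π * (m : ℝ) := by positivity
      nlinarith
  have hmem : w0 ∈ U := he2
  have hEq : ∀ w ∈ U, G (UpperHalfPlane.ofComplex w) =
      ∑' m : ℕ, c m * Complex.exp (2 * π * Complex.I * (m : ℂ) * w) := by
    intro w hw
    have hw' : 0 < w.im := lt_trans he hw
    rw [UpperHalfPlane.ofComplex_apply_of_im_pos hw']
    exact (hc ⟨w, hw'⟩).tsum_eq.symm
  have h3 := (hd.congr hEq).differentiableAt (hU.mem_nhds hmem)
  exact h3.differentiableWithinAt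

end Pool.Agent.Q110.Jac
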