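import Mathlib
import Pool.Agent.Q110.Jac.Coef
import Pool.Agent.Q110.Jac.A1
import Pool.Agent.Q110.Jac.A2
import Pool.Agent.Q110.Jac.A4
import Pool.Agent.Q110.Jac.A6
import Pool.Agent.Q110.Jac.B3
import Pool.Agent.Q110.Jac.B4
import Pool.Agent.Q110.Jac.C1
import Pool.Agent.Q110.Jac.C2
import Pool.Agent.Q110.Jac.C3
import Pool.Agent.Q110.Jac.A5
import Pool.Agent.Q110.Jac.D1
import Pool.Agent.Q110.Jac.D2
import Pool.Agent.Q110.Jac.D3
import Pool.Agent.Q110.Jac.D4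

set_option autoImplicit false

open UpperHalfPlane ModularForm MatrixGroups Filter Topology
open scoped Real

namespace Pool.Agent.Q110.Jac

theorem shift_norm {n : ℕ} (l y : Fin n → ℝ) :
    bil l (y - l) + bil (y - l) (y - l) / 2 = (bil y y - bil l l) / 2 := by
  have h1 : ∀ u v w : Fin n → ℝ, bil u (v - w) = bil u v - bil u w := by
    intro u v w
    rw [bil_comm, bil_sub_left, bil_comm v, bil_comm w]
  rw [h1, bil_sub_left, h1, h1, bil_comm y l]
  ring

theorem bilC_zero {n : ℕ} (l : Fin n → ℂ) : bilC l 0 = 0 := by simp [bilC]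

theorem bilC_single {n : ℕ} (l : Fin n → ℝ) (j : Fin n) (t : ℂ) :
    bilC (toC l) (Pi.single j t) = (l j : ℂ) * t := by
  unfold bilC toC
  rw [Finset.sum_eq_single j]
  · simp
  · intro b _ hb
    simp [Pi.single_eq_of_ne hb]
  · intro h; exact absurd (Finset.mem_univ j) h

section main

variable {φ : ℍ → (Fin 15 → ℂ) → ℂ} (hφ : WeakJacobi 0 L15 φ) {f : ℕ → dual L15 → ℂ}
  (hf : ∀ (τ : ℍ) (z : Fin 15 → ℂ),
    HasSum (fun p : ℕ × dual L15 => f p.1 p.2 * Complex.exp (2 * π * Complex.I * (p.1 : ℂ) * τ) *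
      Complex.exp (2 * π * Complex.I * bilC (toC (p.2 : Fin 15 → ℝ)) z)) (φ τ z))
include hφ hf

/-- the vectors of the first nonzero layer are minimal in their classes -/
theorem layer_min (N : ℕ) (hlt : ∀ m < N, ∀ l, f m l = 0) (l : dual L15) (hl : f N l ≠ 0) :
    (l : Fin 15 → ℝ) = 0 ∨ ((l : Fin 15 → ℝ) ∉ L15 ∧ ((l : Fin 15 → ℝ) 0) ^ 2 = 1 / 2 ∧
      ∑ i : Fin 14, ((l : Fin 15 → ℝ) i.succ) ^ 2 = 1) := by
  refine minimal_L15 l l.2 fun y' hy' hyl => ?_
  by_contra hlt'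
  rw [not_le] at hlt'
  obtain ⟨h1, h2⟩ := coef_rel' isEven_L15 hφ hf (y' - l) hyl l ⟨y', hy'⟩ (by simp)
  have hs := shift_norm (l : Fin 15 → ℝ) y'
  obtain ⟨k1, hk1⟩ := l.2 _ hyl
  obtain ⟨k2, hk2⟩ := isEven_L15.even _ hyl
  have hk : bil (l : Fin 15 → ℝ) (y' - (l : Fin 15 → ℝ)) +
      bil (y' - (l : Fin 15 → ℝ)) (y' - (l : Fin 15 → ℝ)) / 2 = ((k1 + k2 : ℤ) : ℝ) := by
    rw [bil_comm, hk1, hk2]; push_cast; ring
  rw [hk] at h1 h2 hs
  have hneg : ((k1 + k2 : ℤ) : ℝ) < 0 := by rw [hs]; linarith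
  have hneg' : k1 + k2 < 0 := by exact_mod_cast hneg
  rcases lt_or_ge ((N : ℤ) + (k1 + k2)) 0 with h | h
  · exact hl (h2 N (by exact_mod_cast h))
  · obtain ⟨m, hm⟩ := Int.eq_ofNat_of_zero_le h
    have h3 := h1 m N (by
      have : ((m : ℤ) : ℝ) = ((N + (k1 + k2) : ℤ) : ℝ) := by rw [hm]
      push_cast at this ⊢
      linarith)
    have hmN : m < N := by omega
    rw [hlt m hmN] at h3
    exact hl h3.symm

theorem layer_const (N : ℕ) (l l' : dual L15) (hl : (l : Fin 15 → ℝ) ∉ L15)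
    (hl' : (l' : Fin 15 → ℝ) ∉ L15) (hn : bil (l : Fin 15 → ℝ) l = bil (l' : Fin 15 → ℝ) l') :
    f N l = f N l' := by
  have ha := index_two (l' : Fin 15 → ℝ) l l'.2 l.2 hl' hl
  obtain ⟨h1, -⟩ := coef_rel' isEven_L15 hφ hf ((l' : Fin 15 → ℝ) - l) ha l l' (by simp)
  have hs := shift_norm (l : Fin 15 → ℝ) (l' : Fin 15 → ℝ)
  refine (h1 N N ?_).symm
  rw [hs, hn]; ring

theorem zeroth : ∃ c : ℂ, (∀ τ, φ τ 0 = c) ∧ (∀ m, Summable fun l => f m l) ∧
    (∑' l, f 0 l = c) ∧ ∀ m, m ≠ 0 → ∑' l, f m l = 0 := by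
  have h0 : ∀ τ : ℍ, HasSum (fun p : ℕ × dual L15 => f p.1 p.2 * qq p.1 τ * 1) (φ τ 0) := by
    intro τ
    refine hs_congr (hf τ 0) fun p => ?_
    rw [bilC_zero, mul_zero, Complex.exp_zero]
    rfl
  obtain ⟨hs, hq⟩ := group_n f (fun _ => 1) (fun τ => φ τ 0) h0
  obtain ⟨c, hc⟩ := wt_zero_const (fun τ => φ τ 0) (q_hol _ _ hq) (fun γ τ => by
    have h := hφ.modular γ τ 0
    have e1 : (fun i : Fin 15 => (0 : Fin 15 → ℂ) i / denom γ τ) = 0 := by
      funext i; simp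
    rw [e1, bilC_zero] at h
    simpa using h) (qseries_bounded _ _ hq).1
  have hu := q_unique (fun m => ∑' l, f m l * 1) (fun m => if m = 0 then c else 0) (fun τ => φ τ 0)
    hq (fun τ => by
      have h1 : HasSum (fun m : ℕ => (if m = 0 then c else 0) * qq m τ) ((if (0:ℕ) = 0 then c else 0) * qq 0 τ) := by
        refine hasSum_single 0 fun m hm => ?_
        simp [hm]
      have h2 : (if (0:ℕ) = 0 then c else 0) * qq 0 τ = φ τ 0 := by
        rw [hc τ]; simp [qq]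
      rw [h2] at h1
      exact h1)
  simp only [mul_one] at hs hu
  refine ⟨c, hc, hs, ?_, fun m hm => ?_⟩
  · have := hu 0
    simpa using this
  · have := hu m
    simpa [hm] using this

theorem second (c : ℂ) (hc : ∀ τ, φ τ 0 = c) : ∃ M : ℕ → ℂ, M 0 = -(π ^ 2 / 3) * c ∧
    ∀ m, ∀ j : Fin 15, HasSum (fun l : dual L15 => f m l *
      (2 * π * Complex.I * (((l : Fin 15 → ℝ) j : ℝ) : ℂ)) ^ 2) (M m) := by
  obtain ⟨E, hE1, hE2, hE3, hE4⟩ := E2_facts
  let G : Fin 15 → ℍ → ℂ := fun j τ => deriv (deriv (fun t : ℂ => φ τ (Pi.single j t))) 0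
  have hG : ∀ j τ, HasSum (fun p : ℕ × dual L15 => f p.1 p.2 * qq p.1 τ *
      (2 * π * Complex.I * (((p.2 : Fin 15 → ℝ) j : ℝ) : ℂ)) ^ 2) (G j τ) := by
    intro j τ
    refine series_second_deriv (fun p : ℕ × dual L15 => f p.1 p.2 * qq p.1 τ)
      (fun p => (p.2 : Fin 15 → ℝ) j) (fun t : ℂ => φ τ (Pi.single j t)) fun t => ?_
    refine hs_congr (hf τ (Pi.single j t)) fun p => ?_
    rw [bilC_single]
    unfold qq
    congr 2
    ring
  have hgr := fun j => group_n f (fun l => (2 * π * Complex.I * (((l : Fin 15 → ℝ) j : ℝ) : ℂ)) ^ 2)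
    (G j) (hG j)
  have hGE : ∀ j τ, G j τ = -(π ^ 2 / 3) * c * E τ := by
    intro j τ
    have h := wt_two_zero (fun τ => G j τ + (π ^ 2 / 3) * c * E τ) ?_ ?_ ?_ τ
    · linear_combination h
    · exact (q_hol _ _ (hgr j).2).add (hE1.const_mul _)
    · intro γ τ
      have h1 := moment_law L15 φ hφ j γ τ
      have h2 := hE2 γ τ
      show deriv (deriv (fun t : ℂ => φ (γ • τ) (Pi.single j t))) 0 + (π ^ 2 / 3) * c * E (γ • τ) =
        (denom γ τ) ^ 2 * (deriv (deriv (fun t : ℂ => φ τ (Pi.single j t))) 0 + (π ^ 2 / 3) * c * E τ)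
      rw [h1, h2, hc]
      have hpi : (π : ℂ) ≠ 0 := by exact_mod_cast Real.pi_ne_zero
      have e : (π : ℂ) ^ 2 / 3 * c * (6 / (π * Complex.I) * ((γ 1 0 : ℤ) : ℂ) * denom γ τ) =
          - (2 * π * Complex.I * ((γ 1 0 : ℤ) : ℂ) * denom γ τ * c) := by
        have hI : Complex.I ≠ 0 := Complex.I_ne_zero
        have hI2 : Complex.I ^ 2 = -1 := Complex.I_sq
        field_simp
        rw [hI2]
        ring
      linear_combination e
    · exact (qseries_bounded _ _ (hgr j).2).1.add (hE3.const_mul_left _)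
  have hu : ∀ j m, ∑' l, f m l * (2 * π * Complex.I * (((l : Fin 15 → ℝ) j : ℝ) : ℂ)) ^ 2 =
      ∑' l, f m l * (2 * π * Complex.I * (((l : Fin 15 → ℝ) 0 : ℝ) : ℂ)) ^ 2 := by
    intro j m
    refine q_unique (fun m => ∑' l, f m l * (2 * π * Complex.I * (((l : Fin 15 → ℝ) j : ℝ) : ℂ)) ^ 2)
      (fun m => ∑' l, f m l * (2 * π * Complex.I * (((l : Fin 15 → ℝ) 0 : ℝ) : ℂ)) ^ 2) (G 0)
      (fun τ => ?_) (hgr 0).2 m
    have h1 := (hgr j).2 τ
    rw [hGE j τ, ← hGE 0 τ] at h1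
    exact h1
  refine ⟨fun m => ∑' l, f m l * (2 * π * Complex.I * (((l : Fin 15 → ℝ) 0 : ℝ) : ℂ)) ^ 2, ?_, ?_⟩
  · have h1 := (qseries_bounded _ _ (hgr 0).2).2
    have h2 : Tendsto (G 0) atImInfty (𝓝 (-(π ^ 2 / 3) * c * 1)) := by
      have h3 : G 0 = fun τ => -(π ^ 2 / 3) * c * E τ := funext (hGE 0)
      rw [h3]
      exact hE4.const_mul _
    have := tendsto_nhds_unique h1 h2
    rw [mul_one] at this
    exact this
  · intro m j
    show HasSum _ (∑' l, f m l * (2 * π * Complex.I * (((l : Fin 15 → ℝ) 0 : ℝ) : ℂ)) ^ 2)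
    rw [← hu j m]
    exact ((hgr j).1 m).hasSum

end main

/-- weight zero forms of index one for `L15` vanish -/
theorem wt_zero_vanish (φ : ℍ → (Fin 15 → ℂ) → ℂ) (hφ : WeakJacobi 0 L15 φ) :
    ∀ τ z, φ τ z = 0 := by
  obtain ⟨f, hf⟩ := hφ.fourier
  have h : ∀ m l, f m l = 0 := by
    by_contra hne
    push Not at hne
    classical
    have hex : ∃ m, ∃ l, f m l ≠ 0 := hne
    set N := Nat.find hex with hN
    obtain ⟨l0, hl0⟩ := Nat.find_spec hex
    have hlt : ∀ m < N, ∀ l, f m l = 0 := by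
      intro m hm l
      by_contra h
      exact Nat.find_min hex hm ⟨l, h⟩
    obtain ⟨c, hc, hs, hc0, hcm⟩ := zeroth hφ hf
    obtain ⟨M, hM0, hM⟩ := second hφ hf c hc
    have hpi : (π : ℂ) ≠ 0 := by exact_mod_cast Real.pi_ne_zero
    have h4 : (-4 * (π : ℂ) ^ 2) ≠ 0 := by
      refine mul_ne_zero (by norm_num) (pow_ne_zero _ hpi)
    obtain ⟨hz, hX⟩ := final_comb (f N) (M N / (-4 * (π : ℂ) ^ 2)) (layer_min hφ hf N hlt)
      (layer_const hφ hf N) (fun j => by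
        refine hs_congr ((hM N j).div_const (-4 * (π : ℂ) ^ 2)) fun l => ?_
        have hI2 : Complex.I ^ 2 = -1 := Complex.I_sq
        rw [div_eq_iff h4]
        push_cast
        linear_combination (4 * f N l * π ^ 2 * (((l : Fin 15 → ℝ) j : ℝ) : ℂ) ^ 2) * hI2)
    have hMN : M N = 0 := by
      rcases div_eq_zero_iff.1 hX with h | h
      · exact h
      · exact absurd h h4
    have hsum : ∑' l, f N l = f N 0 := by
      refine tsum_eq_single 0 fun l hl => hz l fun h => hl (Subtype.ext h)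
    have hN0 : f N 0 = 0 := by
      rcases Nat.eq_zero_or_pos N with h | h
      · rw [h] at hMN hsum
        rw [hM0] at hMN
        rw [hc0] at hsum
        rw [h, ← hsum]
        rcases mul_eq_zero.1 hMN with h' | h'
        · exfalso
          have : (π : ℂ) ^ 2 = 0 := by linear_combination (-3) * h'
          exact hpi (pow_eq_zero_iff (two_ne_zero) |>.1 this)
        · exact h'
      · rw [← hsum]
        exact hcm N h.ne'
    by_cases h : (l0 : Fin 15 → ℝ) = 0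
    · have : l0 = 0 := Subtype.ext h
      rw [this] at hl0
      exact hl0 hN0
    · exact hl0 (hz l0 h)
  intro τ z
  have h1 := hf τ z
  have h2 : (fun p : ℕ × dual L15 => f p.1 p.2 * Complex.exp (2 * π * Complex.I * (p.1 : ℂ) * τ) *
      Complex.exp (2 * π * Complex.I * bilC (toC (p.2 : Fin 15 → ℝ)) z)) = fun _ => 0 := by
    funext p
    rw [h]; ring
  rw [h2] at h1
  exact h1.unique hasSum_zero

end Pool.Agent.Q110.Jac
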